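import Mathlib

/-!
# Subgroups of `GL_n(Z_p)`: logarithms of unipotent elements modulo `p`

`logp u` is the (truncated) logarithm of a unipotent matrix over `F_p`: the coefficient
`binom(p,i)/p` is congruent to `(-1)^(i-1)/i` modulo `p`.
-/

namespace Pool.Agent.X279.IM

set_option linter.unusedSectionVars false

open Matrix

variable {ι : Type} [Fintype ι] [DecidableEq ι] {p : ℕ} [Fact p.Prime]

/-- The matrix is divisible by `p ^ k`. -/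
def Dv (k : ℕ) (A : Matrix ι ι ℤ_[p]) : Prop := ∃ W, A = (p : ℤ_[p]) ^ k • W

theorem Dv.zero (k : ℕ) : Dv k (0 : Matrix ι ι ℤ_[p]) := ⟨0, by simp⟩

theorem Dv.add {k : ℕ} {A B : Matrix ι ι ℤ_[p]} (hA : Dv k A) (hB : Dv k B) : Dv k (A + B) := by
  obtain ⟨a, rfl⟩ := hA
  obtain ⟨b, rfl⟩ := hB
  exact ⟨a + b, by rw [smul_add]⟩

theorem Dv.neg {k : ℕ} {A : Matrix ι ι ℤ_[p]} (hA : Dv k A) : Dv k (-A) := by
  obtain ⟨a, rfl⟩ := hA
  exact ⟨-a, by rw [smul_neg]⟩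

theorem Dv.sub {k : ℕ} {A B : Matrix ι ι ℤ_[p]} (hA : Dv k A) (hB : Dv k B) : Dv k (A - B) := by
  rw [sub_eq_add_neg]; exact hA.add hB.neg

theorem Dv.sum {k : ℕ} {s : Finset ℕ} {f : ℕ → Matrix ι ι ℤ_[p]} (h : ∀ i ∈ s, Dv k (f i)) :
    Dv k (∑ i ∈ s, f i) := by
  classical
  induction s using Finset.induction_on with
  | empty => simpa using Dv.zero k
  | insert a s ha ih =>
    rw [Finset.sum_insert ha]
    exact (h a (Finset.mem_insert_self a s)).add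
      (ih fun i hi => h i (Finset.mem_insert_of_mem hi))

theorem Dv.mul_left {k : ℕ} {A : Matrix ι ι ℤ_[p]} (B : Matrix ι ι ℤ_[p]) (hA : Dv k A) :
    Dv k (B * A) := by
  obtain ⟨a, rfl⟩ := hA
  exact ⟨B * a, by rw [Matrix.mul_smul]⟩

theorem Dv.mul_right {k : ℕ} {A : Matrix ι ι ℤ_[p]} (B : Matrix ι ι ℤ_[p]) (hA : Dv k A) :
    Dv k (A * B) := by
  obtain ⟨a, rfl⟩ := hA
  exact ⟨a * B, by rw [Matrix.smul_mul]⟩

theorem Dv.mul {j k : ℕ} {A B : Matrix ι ι ℤ_[p]} (hA : Dv j A) (hB : Dv k B) :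
    Dv (j + k) (A * B) := by
  obtain ⟨a, rfl⟩ := hA
  obtain ⟨b, rfl⟩ := hB
  exact ⟨a * b, by rw [Matrix.smul_mul, Matrix.mul_smul, smul_smul, pow_add]⟩

theorem Dv.mono {j k : ℕ} (h : j ≤ k) {A : Matrix ι ι ℤ_[p]} (hA : Dv k A) : Dv j A := by
  obtain ⟨a, rfl⟩ := hA
  obtain ⟨d, rfl⟩ := Nat.exists_eq_add_of_le h
  exact ⟨(p : ℤ_[p]) ^ d • a, by rw [smul_smul, pow_add]⟩

theorem Dv.smul {k : ℕ} (c : ℤ_[p]) {A : Matrix ι ι ℤ_[p]} (hA : Dv k A) : Dv k (c • A) := by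
  obtain ⟨a, rfl⟩ := hA
  exact ⟨c • a, by rw [smul_comm]⟩

theorem Dv.psmul {k : ℕ} (j : ℕ) {A : Matrix ι ι ℤ_[p]} (hA : Dv k A) :
    Dv (j + k) ((p : ℤ_[p]) ^ j • A) := by
  obtain ⟨a, rfl⟩ := hA
  exact ⟨a, by rw [smul_smul, pow_add]⟩

theorem Dv.pow {k : ℕ} {A : Matrix ι ι ℤ_[p]} (hA : Dv k A) (i : ℕ) : Dv (k * i) (A ^ i) := by
  induction i with
  | zero => exact ⟨1, by simp⟩
  | succ i ih => rw [pow_succ, Nat.mul_succ]; exact ih.mul hA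

/-- Reduction modulo `p` of a matrix. -/
noncomputable def rd (A : Matrix ι ι ℤ_[p]) : Matrix ι ι (ZMod p) :=
  (PadicInt.toZMod (p := p)).mapMatrix A

theorem rd_mul (A B : Matrix ι ι ℤ_[p]) : rd (A * B) = rd A * rd B := map_mul _ _ _
theorem rd_add (A B : Matrix ι ι ℤ_[p]) : rd (A + B) = rd A + rd B := map_add _ _ _
theorem rd_sub (A B : Matrix ι ι ℤ_[p]) : rd (A - B) = rd A - rd B := map_sub _ _ _
theorem rd_one : rd (1 : Matrix ι ι ℤ_[p]) = 1 := map_one _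
theorem rd_pow (A : Matrix ι ι ℤ_[p]) (i : ℕ) : rd (A ^ i) = rd A ^ i := map_pow _ _ _
theorem rd_sum (s : Finset ℕ) (f : ℕ → Matrix ι ι ℤ_[p]) :
    rd (∑ i ∈ s, f i) = ∑ i ∈ s, rd (f i) := map_sum _ _ _

theorem toZMod_eq_zero_iff (x : ℤ_[p]) : PadicInt.toZMod x = 0 ↔ ∃ y, x = (p : ℤ_[p]) * y := by
  have h : x ∈ RingHom.ker (PadicInt.toZMod (p := p)) ↔ x ∈ IsLocalRing.maximalIdeal ℤ_[p] := by
    rw [PadicInt.ker_toZMod]
  rw [RingHom.mem_ker, PadicInt.maximalIdeal_eq_span_p, Ideal.mem_span_singleton] at h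
  rw [h]
  rfl

theorem rd_eq_zero_iff (A : Matrix ι ι ℤ_[p]) : rd A = 0 ↔ Dv 1 A := by
  constructor
  · intro h
    have h2 : ∀ i j, ∃ y, A i j = (p : ℤ_[p]) * y := by
      intro i j
      rw [← toZMod_eq_zero_iff]
      have := congrFun (congrFun h i) j
      simpa [rd] using this
    choose f hf using h2
    refine ⟨Matrix.of f, ?_⟩
    ext i j
    rw [hf i j]
    simp
  · rintro ⟨W, rfl⟩
    ext i j
    simp [rd]

theorem rd_eq_iff (A B : Matrix ι ι ℤ_[p]) : rd A = rd B ↔ Dv 1 (A - B) := by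
  rw [← rd_eq_zero_iff, rd_sub, sub_eq_zero]

theorem rd_psmul (A : Matrix ι ι ℤ_[p]) : rd ((p : ℤ_[p]) • A) = 0 := by
  rw [rd_eq_zero_iff]; exact ⟨A, by rw [pow_one]⟩

theorem rd_nsmul (c : ℕ) (A : Matrix ι ι ℤ_[p]) : rd ((c : ℤ_[p]) • A) = (c : ZMod p) • rd A := by
  ext i j
  simp [rd]

/-- Logarithm of a unipotent matrix over `F_p` (`binom(p,i)/p` is `(-1)^(i-1)/i` modulo `p`). -/
noncomputable def logp (u : Matrix ι ι (ZMod p)) : Matrix ι ι (ZMod p) :=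
  ∑ i ∈ Finset.Ico 1 p, ((p.choose i / p : ℕ) : ZMod p) • (u - 1) ^ i

theorem one_add_pow (X : Matrix ι ι ℤ_[p]) :
    (1 + X) ^ p = 1 + (p : ℤ_[p]) • (∑ i ∈ Finset.Ico 1 p, ((p.choose i / p : ℕ) : ℤ_[p]) • X ^ i)
      + X ^ p := by
  have hp : p.Prime := Fact.out
  have h1 : (1 + X) ^ p = ∑ m ∈ Finset.range (p + 1), ((p.choose m : ℕ) : ℤ_[p]) • X ^ m := by
    rw [add_comm, (Commute.one_right X).add_pow]
    refine Finset.sum_congr rfl fun m _ => ?_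
    rw [one_pow, mul_one, Nat.cast_smul_eq_nsmul, nsmul_eq_mul]
    exact (Nat.cast_commute (p.choose m) (X ^ m)).symm
  rw [h1, Finset.sum_range_succ, Finset.range_eq_Ico,
    Finset.sum_eq_sum_Ico_succ_bot hp.pos, Finset.smul_sum]
  have h2 : ∀ i ∈ Finset.Ico 1 p, ((p.choose i : ℕ) : ℤ_[p]) • X ^ i
      = (p : ℤ_[p]) • (((p.choose i / p : ℕ) : ℤ_[p]) • X ^ i) := by
    intro i hi
    rw [Finset.mem_Ico] at hi
    have hd : p ∣ p.choose i := hp.dvd_choose_self (by omega) hi.2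
    rw [smul_smul, ← Nat.cast_mul, Nat.mul_div_cancel' hd]
  rw [Nat.zero_add, Finset.sum_congr rfl h2]
  simp

/-- **Serre's lemma for unipotent reductions.** -/
theorem pow_unip (A : Matrix ι ι ℤ_[p]) (h : (rd A - 1) ^ (p / 2) = 0) :
    ∃ Y, A ^ p = 1 + (p : ℤ_[p]) • Y ∧ rd Y = logp (rd A) := by
  set X : Matrix ι ι ℤ_[p] := A - 1 with hX
  have hA : A = 1 + X := by rw [hX]; abel
  have hrX : rd X = rd A - 1 := by rw [hX, rd_sub, rd_one]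
  have hd : Dv 1 (X ^ (p / 2)) := by rw [← rd_eq_zero_iff, rd_pow, hrX, h]
  have hd2 : Dv 2 (X ^ p) := by
    have e : p = p / 2 + p / 2 + (p - 2 * (p / 2)) := by omega
    have : X ^ p = X ^ (p / 2) * X ^ (p / 2) * X ^ (p - 2 * (p / 2)) := by
      rw [← pow_add, ← pow_add, ← e]
    rw [this]
    exact (hd.mul hd).mul_right _
  obtain ⟨Z, hZ⟩ := hd2
  refine ⟨∑ i ∈ Finset.Ico 1 p, ((p.choose i / p : ℕ) : ℤ_[p]) • X ^ i + (p : ℤ_[p]) • Z, ?_, ?_⟩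
  · rw [hA, one_add_pow, hZ, smul_add, smul_smul, pow_two, add_assoc]
  · rw [rd_add, rd_psmul, add_zero, rd_sum, logp]
    refine Finset.sum_congr rfl fun i _ => ?_
    rw [rd_nsmul, rd_pow, hrX]

/-- The `p`-th power of `1 + p^k Y`. -/
theorem pow_level {k : ℕ} (hk : 1 ≤ k) (hp3 : 3 ≤ p) (Y : Matrix ι ι ℤ_[p]) :
    Dv (k + 2) ((1 + (p : ℤ_[p]) ^ k • Y) ^ p - (1 + (p : ℤ_[p]) ^ (k + 1) • Y)) := by
  rw [one_add_pow]
  have hY : Dv k ((p : ℤ_[p]) ^ k • Y) := ⟨Y, rfl⟩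
  have h1 : Finset.Ico 1 p = insert 1 (Finset.Ico 2 p) := by
    ext x; simp only [Finset.mem_Ico, Finset.mem_insert]; omega
  rw [h1, Finset.sum_insert (by simp)]
  have e1 : (p.choose 1 / p : ℕ) = 1 := by
    rw [Nat.choose_one_right]; exact Nat.div_self (by omega)
  rw [e1, Nat.cast_one, one_smul, pow_one, smul_add, smul_smul, ← pow_succ']
  set S := ∑ i ∈ Finset.Ico 2 p, ((p.choose i / p : ℕ) : ℤ_[p]) • ((p : ℤ_[p]) ^ k • Y) ^ i with hS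
  have e2 : 1 + ((p : ℤ_[p]) ^ (k + 1) • Y + (p : ℤ_[p]) • S) + ((p : ℤ_[p]) ^ k • Y) ^ p
      - (1 + (p : ℤ_[p]) ^ (k + 1) • Y)
      = (p : ℤ_[p]) • S + ((p : ℤ_[p]) ^ k • Y) ^ p := by abel
  rw [e2]
  refine Dv.add ?_ ?_
  · have hS2 : Dv (k * 2) S := by
      refine Dv.sum fun i hi => ?_
      rw [Finset.mem_Ico] at hi
      refine Dv.smul _ ((hY.pow i).mono ?_)
      exact Nat.mul_le_mul_left k hi.1
    have h3 := hS2.psmul 1
    rw [pow_one] at h3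
    exact h3.mono (by omega)
  · refine (hY.pow p).mono ?_
    calc k + 2 ≤ k * 3 := by omega
      _ ≤ k * p := Nat.mul_le_mul_left k hp3

end Pool.Agent.X279.IM
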