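import Pool.Agent.X279.IM.Zar

/-!
# Closed subgroups of finite index
-/

namespace Pool.Agent.X279.IM

set_option linter.unusedSectionVars false

open Matrix

variable {ι : Type} [Fintype ι] [DecidableEq ι] {p : ℕ} [Fact p.Prime]

theorem pow_p_pow (hp3 : 3 ≤ p) {k : ℕ} (hk : 1 ≤ k) (Y : Matrix ι ι ℤ_[p]) (a : ℕ) :
    ∃ Y' : Matrix ι ι ℤ_[p], (1 + (p : ℤ_[p]) ^ k • Y) ^ (p ^ a)
      = 1 + (p : ℤ_[p]) ^ (k + a) • Y' ∧ rd Y' = rd Y := by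
  induction a with
  | zero => exact ⟨Y, by simp, rfl⟩
  | succ a ih =>
    obtain ⟨Y', h1, h2⟩ := ih
    obtain ⟨W, hW⟩ := pow_level (k := k + a) (by omega) hp3 Y'
    rw [sub_eq_iff_eq_add] at hW
    refine ⟨Y' + (p : ℤ_[p]) • W, ?_, by rw [rd_add, rd_psmul, add_zero, h2]⟩
    have e : k + (a + 1) = k + a + 1 := by omega
    rw [e, pow_succ p a, pow_mul, h1, hW, smul_add, smul_smul, ← pow_succ]
    abel

theorem pow_nat {m : ℕ} (hm : 1 ≤ m) (Y : Matrix ι ι ℤ_[p]) (u : ℕ) :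
    ∃ Y' : Matrix ι ι ℤ_[p], (1 + (p : ℤ_[p]) ^ m • Y) ^ u = 1 + (p : ℤ_[p]) ^ m • Y' ∧
      rd Y' = (u : ZMod p) • rd Y := by
  induction u with
  | zero =>
    refine ⟨0, by simp, ?_⟩
    have : rd (0 : Matrix ι ι ℤ_[p]) = 0 := map_zero _
    rw [this, Nat.cast_zero, zero_smul]
  | succ u ih =>
    obtain ⟨Y', h1, h2⟩ := ih
    refine ⟨Y' + Y + (p : ℤ_[p]) ^ m • (Y' * Y), ?_, ?_⟩
    · rw [pow_succ, h1, add_mul, one_mul, mul_add, mul_one, Matrix.smul_mul, Matrix.mul_smul,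
        smul_add, smul_add]
      abel
    · rw [rd_add, rd_add, rd_pow_smul hm, add_zero, h2, Nat.cast_succ, add_smul, one_smul]

/-- A closed subgroup of finite index contains a congruence subgroup of `G`. -/
theorem finite_index (hp3 : 3 ≤ p) {G Γ Δ : Subgroup (GL ι ℤ_[p])} (hsat : Saturated G) {k : ℕ}
    (hk : 1 ≤ k) (hΓ : ∀ g ∈ G, Dv k ((g : Matrix ι ι ℤ_[p]) - 1) → g ∈ Γ)
    (hcl : PadicClosed Δ) (hfin : Δ.relIndex Γ ≠ 0) :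
    ∃ m, k ≤ m ∧ ∀ g ∈ G, Dv m ((g : Matrix ι ι ℤ_[p]) - 1) → g ∈ Δ := by
  have hp : p.Prime := Fact.out
  set N := (Δ.relIndex Γ).factorial with hNdef
  have hN : N ≠ 0 := Nat.factorial_ne_zero _
  have hpow : ∀ γ ∈ Γ, γ ^ N ∈ Δ := by
    intro γ hγ
    obtain ⟨n, hn0, hn1, hn2⟩ := Subgroup.exists_pow_mem_of_relIndex_ne_zero hfin hγ
    obtain ⟨c, hc⟩ := Nat.dvd_factorial hn0 hn1
    rw [hNdef, hc, pow_mul]
    exact Δ.pow_mem (Subgroup.mem_inf.1 hn2).1 c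
  obtain ⟨a, u, hu, hNe⟩ := Nat.exists_eq_pow_mul_and_not_dvd hN p hp.ne_one
  have hka : 1 ≤ k + a := by omega
  refine ⟨k + a, by omega, ?_⟩
  have hfull : layer (k + a) hka G ≤ layer (k + a) hka (Δ ⊓ G) := by
    rw [layer_eq_lieMod hp3 hsat, ← layer_eq_lieMod hp3 hsat k hk]
    rintro X ⟨g, hg, Y, hY, rfl⟩
    have hgΓ : g ∈ Γ := hΓ g hg ⟨Y, by rw [hY]; abel⟩
    obtain ⟨Y1, h1, h2⟩ := pow_p_pow hp3 hk Y a
    obtain ⟨Y2, h3, h4⟩ := pow_nat hka Y1 u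
    have hmem : rd Y2 ∈ layer (k + a) hka (Δ ⊓ G) := by
      refine ⟨g ^ N, Subgroup.mem_inf.2 ⟨hpow g hgΓ, G.pow_mem hg N⟩, Y2, ?_, rfl⟩
      rw [Units.val_pow_eq_pow_val, hNe, pow_mul, hY, h1, h3]
    rw [h4, h2] at hmem
    obtain ⟨v, hv⟩ : ∃ v : ℕ, (v : ZMod p) * (u : ZMod p) = 1 := by
      have hu0 : (u : ZMod p) ≠ 0 := by rwa [Ne, ZMod.natCast_eq_zero_iff]
      refine ⟨((u : ZMod p)⁻¹).val, ?_⟩
      rw [ZMod.natCast_zmod_val, inv_mul_cancel₀ hu0]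
    have h5 := AddSubgroup.nsmul_mem _ hmem v
    have h6 : v • ((u : ZMod p) • rd Y) = rd Y := by
      rw [← Nat.cast_smul_eq_nsmul (ZMod p), smul_smul, hv, one_smul]
    rwa [h6] at h5
  intro g hg hgm
  refine hcl g fun j => ?_
  obtain ⟨γ, hγ, hd⟩ := layer_approx hp3 hsat inf_le_right hka hfull g hg hgm j
  exact ⟨γ, (Subgroup.mem_inf.1 hγ).1, hd.mono (by omega)⟩

/-- If only the identity of `Γ ∩ G` is congruent to `1`, then `Γ ∩ G` is finite. -/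
theorem finite_of_trivial {G Γ : Subgroup (GL ι ℤ_[p])}
    (h : ∀ g ∈ G, g ∈ Γ → Dv 1 ((g : Matrix ι ι ℤ_[p]) - 1) → g = 1) :
    Finite (Γ ⊓ G : Subgroup (GL ι ℤ_[p])) := by
  have : Finite (GL ι (ZMod p)) := inferInstance
  refine Finite.of_injective
    (fun x : (Γ ⊓ G : Subgroup (GL ι ℤ_[p])) => (red (x : GL ι ℤ_[p]) : GL ι (ZMod p))) ?_
  intro x y hxy
  have h1 : (x : GL ι ℤ_[p]) * (y : GL ι ℤ_[p])⁻¹ ∈ (Γ ⊓ G : Subgroup (GL ι ℤ_[p])) :=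
    (Γ ⊓ G).mul_mem x.2 ((Γ ⊓ G).inv_mem y.2)
  obtain ⟨h2, h3⟩ := Subgroup.mem_inf.1 h1
  have h4 : Dv 1 (((x : GL ι ℤ_[p]) * (y : GL ι ℤ_[p])⁻¹ : GL ι ℤ_[p]).1 - 1) := by
    rw [← mem_ker_red, MonoidHom.mem_ker, map_mul, map_inv]
    have : red (x : GL ι ℤ_[p]) = red (y : GL ι ℤ_[p]) := hxy
    rw [this, mul_inv_cancel]
  have h5 := h _ h3 h2 h4
  exact Subtype.ext (mul_inv_eq_one.1 h5)

end Pool.Agent.X279.IM
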