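import Pool.Agent.X279.IM.Basic

/-!
# Closed subgroups of a saturated subgroup of `GL_n(Z_p)`
-/

namespace Pool.Agent.X279.IM

set_option linter.unusedSectionVars false

open Matrix

variable {ι : Type} [Fintype ι] [DecidableEq ι] {p : ℕ} [Fact p.Prime]

/-- Reduction modulo `p`. -/
noncomputable def red : GL ι ℤ_[p] →* GL ι (ZMod p) :=
  Matrix.GeneralLinearGroup.map (PadicInt.toZMod (p := p))

/-- `Γ` is closed in the `p`-adic topology. -/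
def PadicClosed (Γ : Subgroup (GL ι ℤ_[p])) : Prop :=
  ∀ g : GL ι ℤ_[p], (∀ k : ℕ, ∃ γ ∈ Γ, Dv k ((γ : Matrix ι ι ℤ_[p]) - (g : Matrix ι ι ℤ_[p]))) →
    g ∈ Γ

/-- If `1 + p^(k+1) Y` lies in `G` (`k ≥ 1`) then so does `1 + p^k Y'` for some `Y'` congruent to
`Y` modulo `p`. -/
def Saturated (G : Subgroup (GL ι ℤ_[p])) : Prop :=
  ∀ k : ℕ, 1 ≤ k → ∀ g ∈ G, ∀ Y : Matrix ι ι ℤ_[p],
    (g : Matrix ι ι ℤ_[p]) = 1 + (p : ℤ_[p]) ^ (k + 1) • Y →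
    ∃ g' ∈ G, ∃ Z : Matrix ι ι ℤ_[p],
      (g' : Matrix ι ι ℤ_[p]) = 1 + (p : ℤ_[p]) ^ k • (Y + (p : ℤ_[p]) • Z)

/-- The Lie algebra of `G` modulo `p`: all `Y` modulo `p` with `1 + p Y ∈ G`. -/
noncomputable def lieMod (G : Subgroup (GL ι ℤ_[p])) : AddSubgroup (Matrix ι ι (ZMod p)) where
  carrier := {X | ∃ g ∈ G, ∃ Y : Matrix ι ι ℤ_[p],
    (g : Matrix ι ι ℤ_[p]) = 1 + (p : ℤ_[p]) • Y ∧ rd Y = X}
  zero_mem' := ⟨1, G.one_mem, 0, by simp, map_zero _⟩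
  add_mem' := by
    rintro _ _ ⟨g, hg, Y, hY, rfl⟩ ⟨h, hh, Z, hZ, rfl⟩
    refine ⟨g * h, G.mul_mem hg hh, Y + Z + (p : ℤ_[p]) • (Y * Z), ?_, ?_⟩
    · rw [Units.val_mul, hY, hZ, add_mul, one_mul, mul_add, mul_one, Matrix.smul_mul,
        Matrix.mul_smul, smul_add, smul_add]
      abel
    · rw [rd_add, rd_add, rd_psmul, add_zero]
  neg_mem' := by
    rintro _ ⟨g, hg, Y, hY, rfl⟩
    have h1 : (g : Matrix ι ι ℤ_[p]) * ((g⁻¹ : GL ι ℤ_[p]) : Matrix ι ι ℤ_[p]) = 1 := by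
      rw [← Units.val_mul, mul_inv_cancel, Units.val_one]
    set h : Matrix ι ι ℤ_[p] := ((g⁻¹ : GL ι ℤ_[p]) : Matrix ι ι ℤ_[p]) with hh
    have h2 : h = 1 + (p : ℤ_[p]) • (-(Y * h)) := by
      rw [hY, add_mul, one_mul, Matrix.smul_mul] at h1
      rw [smul_neg, ← sub_eq_add_neg, eq_sub_iff_add_eq]
      exact h1
    refine ⟨g⁻¹, G.inv_mem hg, -(Y * h), h2, ?_⟩
    have h3 : rd h = 1 := by
      rw [h2, rd_add, rd_psmul, add_zero, rd_one]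
    have h4 : rd (-(Y * h)) = -(rd Y * rd h) := by
      rw [← rd_mul]; exact map_neg _ _
    rw [h4, h3, mul_one]

/-- The logarithms of the unipotent elements `u` with `(u - 1)^(p/2) = 0` of the reduction of `G`
modulo `p`. -/
noncomputable def logs (G : Subgroup (GL ι ℤ_[p])) : Set (Matrix ι ι (ZMod p)) :=
  {X | ∃ g ∈ G, (rd (g : Matrix ι ι ℤ_[p]) - 1) ^ (p / 2) = 0 ∧
    X = logp (rd (g : Matrix ι ι ℤ_[p]))}

theorem logs_subset_lieMod (Γ : Subgroup (GL ι ℤ_[p])) : logs Γ ⊆ lieMod Γ := by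
  rintro _ ⟨g, hg, h, rfl⟩
  obtain ⟨Y, h1, h2⟩ := pow_unip (g : Matrix ι ι ℤ_[p]) h
  exact ⟨g ^ p, Γ.pow_mem hg p, Y, by rw [Units.val_pow_eq_pow_val]; exact h1, h2⟩

theorem red_eq_iff (g h : GL ι ℤ_[p]) :
    red g = red h ↔ rd (g : Matrix ι ι ℤ_[p]) = rd (h : Matrix ι ι ℤ_[p]) := by
  constructor
  · intro e
    have := congrArg (Units.val) e
    exact this
  · intro e
    exact Units.ext e

theorem mem_ker_red (g : GL ι ℤ_[p]) :
    g ∈ (red : GL ι ℤ_[p] →* GL ι (ZMod p)).ker ↔ Dv 1 ((g : Matrix ι ι ℤ_[p]) - 1) := by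
  rw [MonoidHom.mem_ker, ← rd_eq_zero_iff, rd_sub, rd_one, sub_eq_zero]
  have := red_eq_iff g (1 : GL ι ℤ_[p])
  rw [map_one, Units.val_one, rd_one] at this
  exact this

/-- Surjectivity on every layer of the congruence filtration. -/
theorem level_surj (hp3 : 3 ≤ p) {G Γ : Subgroup (GL ι ℤ_[p])} (hsat : Saturated G)
    (hlie : lieMod G ≤ lieMod Γ) : ∀ k : ℕ, 1 ≤ k → ∀ g ∈ G,
      Dv k ((g : Matrix ι ι ℤ_[p]) - 1) →
      ∃ γ ∈ Γ, Dv k ((γ : Matrix ι ι ℤ_[p]) - 1) ∧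
        Dv (k + 1) ((γ : Matrix ι ι ℤ_[p]) - (g : Matrix ι ι ℤ_[p])) := by
  intro k hk
  induction k, hk using Nat.le_induction with
  | base =>
    rintro g hg ⟨Y, hY⟩
    rw [pow_one] at hY
    have h1 : rd Y ∈ lieMod G := ⟨g, hg, Y, by rw [← hY]; abel, rfl⟩
    obtain ⟨γ, hγ, Y', hY', e⟩ := hlie h1
    rw [rd_eq_iff] at e
    refine ⟨γ, hγ, ⟨Y', by rw [hY', pow_one]; abel⟩, ?_⟩
    have h2 : (γ : Matrix ι ι ℤ_[p]) - (g : Matrix ι ι ℤ_[p]) = (p : ℤ_[p]) ^ 1 • (Y' - Y) := by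
      rw [hY', smul_sub, pow_one, ← hY]; abel
    rw [h2]
    exact e.psmul 1
  | succ k hk ih =>
    rintro g hg ⟨Y, hY⟩
    obtain ⟨g', hg', Z, hZ⟩ := hsat k hk g hg Y (by rw [← hY]; abel)
    obtain ⟨γ, hγ, h1, W, hW⟩ := ih g' hg' ⟨Y + (p : ℤ_[p]) • Z, by rw [hZ]; abel⟩
    set Y' : Matrix ι ι ℤ_[p] := Y + (p : ℤ_[p]) • (Z + W) with hY'
    have h2 : (γ : Matrix ι ι ℤ_[p]) = 1 + (p : ℤ_[p]) ^ k • Y' := by
      have : (γ : Matrix ι ι ℤ_[p]) = (g' : Matrix ι ι ℤ_[p]) + (p : ℤ_[p]) ^ (k + 1) • W := by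
        rw [← hW]; abel
      rw [this, hZ, hY']
      simp only [smul_add, smul_smul, pow_succ]
      abel
    have h3 := pow_level hk hp3 Y'
    rw [← h2] at h3
    have h4 : Dv (k + 2) (1 + (p : ℤ_[p]) ^ (k + 1) • Y' - (g : Matrix ι ι ℤ_[p])) := by
      refine ⟨Z + W, ?_⟩
      have : (g : Matrix ι ι ℤ_[p]) = 1 + (p : ℤ_[p]) ^ (k + 1) • Y := by rw [← hY]; abel
      rw [this, hY']
      simp only [smul_add, smul_smul, pow_succ]
      abel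
    have h5 : Dv (k + 2) ((γ : Matrix ι ι ℤ_[p]) ^ p - (g : Matrix ι ι ℤ_[p])) := by
      have := h3.add h4
      convert this using 1
      abel
    refine ⟨γ ^ p, Γ.pow_mem hγ p, ?_, ?_⟩
    · rw [Units.val_pow_eq_pow_val]
      have h6 : Dv (k + 1) ((g : Matrix ι ι ℤ_[p]) - 1) := ⟨Y, hY⟩
      have := (h5.mono (by omega : k + 1 ≤ k + 2)).add h6
      convert this using 1
      abel
    · rw [Units.val_pow_eq_pow_val]
      exact h5

theorem approx (hp3 : 3 ≤ p) {G Γ : Subgroup (GL ι ℤ_[p])} (hsat : Saturated G) (hle : Γ ≤ G)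
    (hlie : lieMod G ≤ lieMod Γ) (g : GL ι ℤ_[p]) (hg : g ∈ G)
    (h1 : Dv 1 ((g : Matrix ι ι ℤ_[p]) - 1)) : ∀ j : ℕ,
      ∃ γ ∈ Γ, Dv (j + 1) ((γ : Matrix ι ι ℤ_[p]) - (g : Matrix ι ι ℤ_[p])) := by
  intro j
  induction j with
  | zero =>
    refine ⟨1, Γ.one_mem, ?_⟩
    have := h1.neg
    convert this using 1
    rw [Units.val_one]; abel
  | succ j ih =>
    obtain ⟨γ, hγ, hd⟩ := ih
    have e1 : ((γ⁻¹ : GL ι ℤ_[p]) : Matrix ι ι ℤ_[p]) * (γ : Matrix ι ι ℤ_[p]) = 1 := by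
      rw [← Units.val_mul, inv_mul_cancel, Units.val_one]
    have e2 : (γ : Matrix ι ι ℤ_[p]) * ((γ⁻¹ : GL ι ℤ_[p]) : Matrix ι ι ℤ_[p]) = 1 := by
      rw [← Units.val_mul, mul_inv_cancel, Units.val_one]
    have h2 : Dv (j + 1) (((γ⁻¹ * g : GL ι ℤ_[p]) : Matrix ι ι ℤ_[p]) - 1) := by
      have := (hd.mul_left ((γ⁻¹ : GL ι ℤ_[p]) : Matrix ι ι ℤ_[p])).neg
      convert this using 1
      rw [Units.val_mul, mul_sub, e1]; abel
    obtain ⟨δ, hδ, -, h3⟩ := level_surj hp3 hsat hlie (j + 1) (by omega) (γ⁻¹ * g)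
      (G.mul_mem (G.inv_mem (hle hγ)) hg) h2
    refine ⟨γ * δ, Γ.mul_mem hγ hδ, ?_⟩
    have h4 := h3.mul_left (γ : Matrix ι ι ℤ_[p])
    convert h4 using 1
    rw [Units.val_mul, Units.val_mul, mul_sub, ← mul_assoc, e2, one_mul]

/-- **Local theorem.** If the logarithms of unipotent elements of the reduction of `Γ` generate
the Lie algebra of `G` modulo `p`, then `Γ` contains the congruence kernel of `G`. -/
theorem kernel_le (hp3 : 3 ≤ p) {G Γ : Subgroup (GL ι ℤ_[p])} (hsat : Saturated G) (hle : Γ ≤ G)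
    (hcl : PadicClosed Γ) (hlogs : lieMod G ≤ AddSubgroup.closure (logs Γ)) :
    G ⊓ (red : GL ι ℤ_[p] →* GL ι (ZMod p)).ker ≤ Γ := by
  have hlie : lieMod G ≤ lieMod Γ :=
    hlogs.trans ((AddSubgroup.closure_le _).2 (logs_subset_lieMod Γ))
  intro g hgk
  obtain ⟨hg, hk⟩ := Subgroup.mem_inf.1 hgk
  rw [mem_ker_red] at hk
  refine hcl g fun k => ?_
  obtain ⟨γ, hγ, h⟩ := approx hp3 hsat hle hlie g hg hk k
  exact ⟨γ, hγ, h.mono (by omega)⟩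

theorem relIndex_eq {G Γ : Subgroup (GL ι ℤ_[p])} (hle : Γ ≤ G)
    (h : G ⊓ (red : GL ι ℤ_[p] →* GL ι (ZMod p)).ker ≤ Γ) :
    (Γ.map red).relIndex (G.map red) = Γ.relIndex G := by
  rw [← Subgroup.relIndex_comap, Subgroup.comap_map_eq, ← Subgroup.inf_relIndex_right]
  congr 1
  apply le_antisymm
  · intro x hxx
    obtain ⟨hx, hxG⟩ := Subgroup.mem_inf.1 hxx
    rw [Subgroup.mem_sup_of_normal_right] at hx
    obtain ⟨γ, hγ, n, hn, rfl⟩ := hx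
    have hnG : n ∈ G := by
      have := G.mul_mem (G.inv_mem (hle hγ)) hxG
      rwa [inv_mul_cancel_left] at this
    exact Γ.mul_mem hγ (h ⟨hnG, hn⟩)
  · exact le_inf le_sup_left hle

theorem red_pow_eq_one (g : GL ι ℤ_[p]) (h : (rd (g : Matrix ι ι ℤ_[p]) - 1) ^ (p / 2) = 0) :
    red g ^ p = 1 := by
  rw [← map_pow, ← map_one (red : GL ι ℤ_[p] →* GL ι (ZMod p)), red_eq_iff]
  obtain ⟨Y, hY, -⟩ := pow_unip (g : Matrix ι ι ℤ_[p]) h
  rw [Units.val_pow_eq_pow_val, hY, rd_add, rd_psmul, Units.val_one, add_zero]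

theorem mem_of_relIndex_lt {H : Type*} [Group H] {A B : Subgroup H} (h0 : A.relIndex B ≠ 0)
    (h1 : A.relIndex B < p) {u : H} (hu : u ∈ B) (hup : u ^ p = 1) : u ∈ A := by
  obtain ⟨n, hn0, hn1, hn2⟩ := Subgroup.exists_pow_mem_of_relIndex_ne_zero h0 hu
  have hp : p.Prime := Fact.out
  have hco : Nat.Coprime p n :=
    (Nat.Prime.coprime_iff_not_dvd hp).2 fun hd => absurd (Nat.le_of_dvd hn0 hd) (by omega)
  have hg := Nat.gcd_eq_gcd_ab p n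
  rw [hco.gcd_eq_one] at hg
  have h2 : u = (u ^ p) ^ (Nat.gcdA p n) * (u ^ n) ^ (Nat.gcdB p n) := by
    rw [← zpow_natCast, ← zpow_natCast, ← _root_.zpow_mul, ← _root_.zpow_mul, ← _root_.zpow_add,
      ← hg]
    simp
  rw [h2, hup, _root_.one_zpow, one_mul]
  exact A.zpow_mem (Subgroup.mem_inf.1 hn2).1 _

/-- The Lie algebra of `G` modulo `p` is generated by logarithms of unipotent elements of the
reduction of `G` modulo `p`. -/
def LieFromUnipotents (G : Subgroup (GL ι ℤ_[p])) : Prop :=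
  lieMod G ≤ AddSubgroup.closure (logs G)

theorem relIndex_red_ne_zero (G Γ : Subgroup (GL ι ℤ_[p])) :
    (Γ.map red).relIndex (G.map red) ≠ 0 := by
  have : Finite (GL ι (ZMod p)) := inferInstance
  exact Subgroup.index_ne_zero_of_finite

/-- A closed subgroup whose reduction modulo `p` has index less than `p` contains the congruence
kernel. -/
theorem kernel_le_of_index (hp3 : 3 ≤ p) {G Γ : Subgroup (GL ι ℤ_[p])} (hsat : Saturated G)
    (hG : LieFromUnipotents G) (hle : Γ ≤ G) (hcl : PadicClosed Γ)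
    (hlt : (Γ.map red).relIndex (G.map red) < p) :
    G ⊓ (red : GL ι ℤ_[p] →* GL ι (ZMod p)).ker ≤ Γ := by
  refine kernel_le hp3 hsat hle hcl (hG.trans ((AddSubgroup.closure_mono ?_)))
  rintro _ ⟨g, hg, h, rfl⟩
  have h1 : red g ∈ Γ.map red :=
    mem_of_relIndex_lt (relIndex_red_ne_zero G Γ) hlt (Subgroup.mem_map_of_mem _ hg)
      (red_pow_eq_one g h)
  obtain ⟨γ, hγ, e⟩ := Subgroup.mem_map.1 h1
  rw [red_eq_iff] at e
  exact ⟨γ, hγ, by rw [e]; exact h, by rw [e]⟩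

end Pool.Agent.X279.IM
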