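import Pool.Agent.X279.IM.Group

/-!
# The criterion by irreducibility of the adjoint action modulo `p`
-/

namespace Pool.Agent.X279.IM

set_option linter.unusedSectionVars false

open Matrix

variable {ι : Type} [Fintype ι] [DecidableEq ι] {p : ℕ} [Fact p.Prime]

theorem pow_card_eq_zero {N : Matrix ι ι (ZMod p)} (h : IsNilpotent N) :
    N ^ Fintype.card ι = 0 := by
  have h1 := Matrix.isNilpotent_charpoly_sub_pow_of_isNilpotent h
  have h2 : N.charpoly = Polynomial.X ^ Fintype.card ι := sub_eq_zero.1 h1.eq_zero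
  have h3 := Matrix.aeval_self_charpoly N
  rw [h2] at h3
  simpa using h3

theorem eq_one_of_logp {u : Matrix ι ι (ZMod p)} (h : IsNilpotent (u - 1)) (h0 : logp u = 0) :
    u = 1 := by
  have hp : p.Prime := Fact.out
  set N := u - 1 with hN
  have h1 : Finset.Ico 1 p = insert 1 (Finset.Ico 2 p) := by
    have := hp.two_le
    ext x; simp only [Finset.mem_Ico, Finset.mem_insert]; omega
  have e1 : (p.choose 1 / p : ℕ) = 1 := by
    rw [Nat.choose_one_right]; exact Nat.div_self hp.pos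
  set Q : Matrix ι ι (ZMod p) :=
    ∑ i ∈ Finset.Ico 2 p, ((p.choose i / p : ℕ) : ZMod p) • N ^ (i - 2) with hQ
  have h2 : logp u = N * (1 + N * Q) := by
    rw [logp, ← hN, h1, Finset.sum_insert (by simp), e1, Nat.cast_one, one_smul, pow_one, mul_add,
      mul_one, hQ, Finset.mul_sum, Finset.mul_sum]
    congr 1
    refine Finset.sum_congr rfl fun i hi => ?_
    rw [Finset.mem_Ico] at hi
    rw [Matrix.mul_smul, Matrix.mul_smul, ← pow_succ', ← pow_succ']
    congr 2
    omega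
  have hc : Commute N Q := by
    rw [hQ]
    refine Commute.sum_right _ _ _ fun i _ => ?_
    exact ((Commute.refl N).pow_right _).smul_right _
  have h3 : IsNilpotent (N * Q) := hc.isNilpotent_mul_right h
  have h4 : IsUnit (1 + N * Q) := h3.isUnit_one_add
  rw [h0] at h2
  have h5 : N = 0 := by
    obtain ⟨w, hw⟩ := h4
    rw [← hw] at h2
    have := congrArg (· * ((w⁻¹ : (Matrix ι ι (ZMod p))ˣ) : Matrix ι ι (ZMod p))) h2
    simp only [zero_mul, mul_assoc, Units.mul_inv, mul_one] at this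
    exact this.symm
  rw [hN, sub_eq_zero] at h5
  exact h5

/-- The adjoint action of the reduction of `Γ` on the Lie algebra of `G` modulo `p` is
irreducible. -/
def AdjointIrreducible (Γ G : Subgroup (GL ι ℤ_[p])) : Prop :=
  ∀ W : AddSubgroup (Matrix ι ι (ZMod p)), W ≤ lieMod G →
    (∀ γ ∈ Γ, ∀ X ∈ W, ((red γ : GL ι (ZMod p)) : Matrix ι ι (ZMod p)) * X *
      (((red γ)⁻¹ : GL ι (ZMod p)) : Matrix ι ι (ZMod p)) ∈ W) →
    W = ⊥ ∨ W = lieMod G

theorem rd_coe (g : GL ι ℤ_[p]) :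
    rd (g : Matrix ι ι ℤ_[p]) = ((red g : GL ι (ZMod p)) : Matrix ι ι (ZMod p)) := rfl

theorem conj_logp (a : GL ι (ZMod p)) (u : Matrix ι ι (ZMod p)) :
    (a : Matrix ι ι (ZMod p)) * logp u * ((a⁻¹ : GL ι (ZMod p)) : Matrix ι ι (ZMod p))
      = logp ((a : Matrix ι ι (ZMod p)) * u * ((a⁻¹ : GL ι (ZMod p)) : Matrix ι ι (ZMod p))) := by
  rw [logp, logp, Finset.mul_sum, Finset.sum_mul]
  refine Finset.sum_congr rfl fun i _ => ?_
  have h1 : (a : Matrix ι ι (ZMod p)) * u * ((a⁻¹ : GL ι (ZMod p)) : Matrix ι ι (ZMod p)) - 1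
      = (a : Matrix ι ι (ZMod p)) * (u - 1) * ((a⁻¹ : GL ι (ZMod p)) : Matrix ι ι (ZMod p)) := by
    rw [mul_sub, sub_mul, mul_one, Units.mul_inv]
  rw [h1, Units.conj_pow, Matrix.mul_smul, Matrix.smul_mul]

/-- **Criterion.** If the order of the reduction of `Γ` is divisible by `p` and the reduction of
`Γ` acts irreducibly on the Lie algebra of `G` modulo `p`, then `Γ` contains the congruence
kernel of `G`. -/
theorem kernel_le_of_irreducible (hp3 : 3 ≤ p) (hn : 2 * Fintype.card ι ≤ p)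
    {G Γ : Subgroup (GL ι ℤ_[p])} (hsat : Saturated G) (hle : Γ ≤ G) (hcl : PadicClosed Γ)
    (hdvd : p ∣ Nat.card (Γ.map (red : GL ι ℤ_[p] →* GL ι (ZMod p))))
    (hirr : AdjointIrreducible Γ G) :
    G ⊓ (red : GL ι ℤ_[p] →* GL ι (ZMod p)).ker ≤ Γ := by
  have hp : p.Prime := Fact.out
  obtain ⟨u, hu⟩ := exists_prime_orderOf_dvd_card' (G := Γ.map (red : GL ι ℤ_[p] →* _)) p hdvd
  obtain ⟨γ, hγ, e⟩ := Subgroup.mem_map.1 u.2
  have hup : (u : GL ι (ZMod p)) ^ p = 1 := by
    have := pow_orderOf_eq_one u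
    rw [hu] at this
    exact_mod_cast congrArg Subtype.val this
  have hu1 : (u : GL ι (ZMod p)) ≠ 1 := by
    intro h
    have : u = 1 := Subtype.ext h
    rw [this, orderOf_one] at hu
    exact hp.one_lt.ne hu
  have hne : Nonempty ι := by
    by_contra h
    rw [not_nonempty_iff] at h
    exact hu1 (Units.ext (Subsingleton.elim _ _))
  have hchar : CharP (Matrix ι ι (ZMod p)) p := inferInstance
  set v : Matrix ι ι (ZMod p) := ((u : GL ι (ZMod p)) : Matrix ι ι (ZMod p)) with hv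
  have hvp : v ^ p = 1 := by
    rw [hv, ← Units.val_pow_eq_pow_val, hup, Units.val_one]
  have hnil : IsNilpotent (v - 1) := by
    refine ⟨p, ?_⟩
    rw [sub_pow_char_of_commute p (Commute.one_right v), hvp, one_pow, sub_self]
  have hun : (rd (γ : Matrix ι ι ℤ_[p]) - 1) ^ (p / 2) = 0 := by
    rw [rd_coe, e, ← hv]
    have h1 : Fintype.card ι ≤ p / 2 := by omega
    rw [← Nat.add_sub_cancel' h1, pow_add, pow_card_eq_zero hnil, zero_mul]
  refine kernel_le hp3 hsat hle hcl ?_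
  have hle2 : AddSubgroup.closure (logs Γ) ≤ lieMod G := by
    rw [AddSubgroup.closure_le]
    intro X hX
    obtain ⟨g, hg, Y, hY, e⟩ := logs_subset_lieMod Γ hX
    exact ⟨g, hle hg, Y, hY, e⟩
  have hst : ∀ δ ∈ Γ, ∀ X ∈ AddSubgroup.closure (logs Γ),
      ((red δ : GL ι (ZMod p)) : Matrix ι ι (ZMod p)) * X *
        (((red δ)⁻¹ : GL ι (ZMod p)) : Matrix ι ι (ZMod p)) ∈ AddSubgroup.closure (logs Γ) := by
    intro δ hδ X hX
    set φ : Matrix ι ι (ZMod p) →+ Matrix ι ι (ZMod p) :=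
      { toFun := fun X => ((red δ : GL ι (ZMod p)) : Matrix ι ι (ZMod p)) * X *
          (((red δ)⁻¹ : GL ι (ZMod p)) : Matrix ι ι (ZMod p))
        map_zero' := by simp
        map_add' := by intro a b; rw [mul_add, add_mul] } with hφ
    have h1 : AddSubgroup.closure (logs Γ) ≤ (AddSubgroup.closure (logs Γ)).comap φ := by
      rw [AddSubgroup.closure_le]
      rintro _ ⟨g, hg, hgu, rfl⟩
      rw [AddSubgroup.coe_comap, Set.mem_preimage, SetLike.mem_coe]
      refine AddSubgroup.subset_closure ⟨δ * g * δ⁻¹, Γ.mul_mem (Γ.mul_mem hδ hg) (Γ.inv_mem hδ),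
        ?_, ?_⟩
      · rw [rd_coe, map_mul, map_mul, map_inv, Units.val_mul, Units.val_mul]
        have h1 : ((red δ : GL ι (ZMod p)) : Matrix ι ι (ZMod p)) *
            ((red g : GL ι (ZMod p)) : Matrix ι ι (ZMod p)) *
            (((red δ)⁻¹ : GL ι (ZMod p)) : Matrix ι ι (ZMod p)) - 1
            = ((red δ : GL ι (ZMod p)) : Matrix ι ι (ZMod p)) *
              (((red g : GL ι (ZMod p)) : Matrix ι ι (ZMod p)) - 1) *
              (((red δ)⁻¹ : GL ι (ZMod p)) : Matrix ι ι (ZMod p)) := by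
          rw [mul_sub, sub_mul, mul_one, Units.mul_inv]
        rw [h1, Units.conj_pow, ← rd_coe g, hgu, mul_zero, zero_mul]
      · change _ * logp (rd (g : Matrix ι ι ℤ_[p])) * _ = _
        rw [rd_coe, rd_coe, conj_logp, map_mul, map_mul, map_inv, Units.val_mul, Units.val_mul]
    exact h1 hX
  rcases hirr (AddSubgroup.closure (logs Γ)) hle2 hst with h | h
  · exfalso
    have hmem : logp (rd (γ : Matrix ι ι ℤ_[p])) ∈ AddSubgroup.closure (logs Γ) :=
      AddSubgroup.subset_closure ⟨γ, hγ, hun, rfl⟩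
    rw [h, AddSubgroup.mem_bot, rd_coe, e, ← hv] at hmem
    have := eq_one_of_logp hnil hmem
    exact hu1 (Units.ext this)
  · exact h.ge

end Pool.Agent.X279.IM
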