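import Pool.Agent.X279.IM.Simil

/-!
# Residually irreducible adjoint action: the congruence kernel of the image
-/

namespace Pool.Agent.X279.IM

set_option linter.unusedSectionVars false

open Matrix

variable {ι : Type} [Fintype ι] [DecidableEq ι] {p : ℕ} [Fact p.Prime]

theorem rd_pow_smul {k : ℕ} (hk : 1 ≤ k) (A : Matrix ι ι ℤ_[p]) :
    rd ((p : ℤ_[p]) ^ k • A) = 0 := by
  obtain ⟨j, rfl⟩ : ∃ j, k = j + 1 := ⟨k - 1, by omega⟩
  rw [pow_succ', mul_smul, rd_psmul]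

/-- The `k`-th layer of the congruence filtration of `G`. -/
noncomputable def layer (k : ℕ) (hk : 1 ≤ k) (G : Subgroup (GL ι ℤ_[p])) :
    AddSubgroup (Matrix ι ι (ZMod p)) where
  carrier := {X | ∃ g ∈ G, ∃ Y : Matrix ι ι ℤ_[p],
    (g : Matrix ι ι ℤ_[p]) = 1 + (p : ℤ_[p]) ^ k • Y ∧ rd Y = X}
  zero_mem' := ⟨1, G.one_mem, 0, by simp, map_zero _⟩
  add_mem' := by
    rintro _ _ ⟨g, hg, Y, hY, rfl⟩ ⟨h, hh, Z, hZ, rfl⟩
    refine ⟨g * h, G.mul_mem hg hh, Y + Z + (p : ℤ_[p]) ^ k • (Y * Z), ?_, ?_⟩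
    · rw [Units.val_mul, hY, hZ, add_mul, one_mul, mul_add, mul_one, Matrix.smul_mul,
        Matrix.mul_smul, smul_add, smul_add]
      abel
    · rw [rd_add, rd_add, rd_pow_smul hk, add_zero]
  neg_mem' := by
    rintro _ ⟨g, hg, Y, hY, rfl⟩
    have h1 : (g : Matrix ι ι ℤ_[p]) * ((g⁻¹ : GL ι ℤ_[p]) : Matrix ι ι ℤ_[p]) = 1 := by
      rw [← Units.val_mul, mul_inv_cancel, Units.val_one]
    set h : Matrix ι ι ℤ_[p] := ((g⁻¹ : GL ι ℤ_[p]) : Matrix ι ι ℤ_[p]) with hh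
    have h2 : h = 1 + (p : ℤ_[p]) ^ k • (-(Y * h)) := by
      rw [hY, add_mul, one_mul, Matrix.smul_mul] at h1
      rw [smul_neg, ← sub_eq_add_neg, eq_sub_iff_add_eq]
      exact h1
    refine ⟨g⁻¹, G.inv_mem hg, -(Y * h), h2, ?_⟩
    have h3 : rd h = 1 := by
      rw [h2, rd_add, rd_pow_smul hk, add_zero, rd_one]
    have h4 : rd (-(Y * h)) = -(rd Y * rd h) := by
      rw [← rd_mul]; exact map_neg _ _
    rw [h4, h3, mul_one]

theorem layer_isoLie {k : ℕ} (hk : 1 ≤ k) {S : Matrix ι ι ℤ_[p]} {X : Matrix ι ι (ZMod p)}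
    (hX : X ∈ layer k hk (SOrth S)) : X ∈ IsoLie (rd S) := by
  obtain ⟨g, hg, Y, hY, rfl⟩ := hX
  have hgS := hg.1
  have h1 : Yᵀ * S + S * Y + (p : ℤ_[p]) ^ k • (Yᵀ * S * Y) = 0 := by
    apply psmul_cancel (k := k)
    rw [hY, Matrix.transpose_add, Matrix.transpose_smul, Matrix.transpose_one] at hgS
    have h2 : (1 + (p : ℤ_[p]) ^ k • Yᵀ) * S * (1 + (p : ℤ_[p]) ^ k • Y)
        = S + (p : ℤ_[p]) ^ k • (Yᵀ * S + S * Y + (p : ℤ_[p]) ^ k • (Yᵀ * S * Y)) := by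
      simp only [add_mul, mul_add, one_mul, mul_one, Matrix.smul_mul, Matrix.mul_smul, smul_add]
      abel
    rw [h2] at hgS
    exact add_eq_left.1 hgS
  have h3 := congrArg rd h1
  rw [rd_add, rd_pow_smul hk, add_zero, rd_add, rd_mul, rd_mul, rd_transpose] at h3
  change (rd Y)ᵀ * rd S + rd S * rd Y = 0
  rw [h3]; exact map_zero _

theorem conj_one_add_pow {k : ℕ} {γ g : GL ι ℤ_[p]} {Y : Matrix ι ι ℤ_[p]}
    (hY : (g : Matrix ι ι ℤ_[p]) = 1 + (p : ℤ_[p]) ^ k • Y) :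
    ((γ * g * γ⁻¹ : GL ι ℤ_[p]) : Matrix ι ι ℤ_[p]) = 1 + (p : ℤ_[p]) ^ k •
      ((γ : Matrix ι ι ℤ_[p]) * Y * ((γ⁻¹ : GL ι ℤ_[p]) : Matrix ι ι ℤ_[p])) := by
  have e1 : (γ : Matrix ι ι ℤ_[p]) * ((γ⁻¹ : GL ι ℤ_[p]) : Matrix ι ι ℤ_[p]) = 1 := by
    rw [← Units.val_mul, mul_inv_cancel, Units.val_one]
  rw [Units.val_mul, Units.val_mul, hY, mul_add, add_mul, mul_one, e1, Matrix.mul_smul,
    Matrix.smul_mul]

/-- From one full layer to all the following ones. -/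
theorem layer_surj (hp3 : 3 ≤ p) {G Γ : Subgroup (GL ι ℤ_[p])} (hsat : Saturated G) {k₀ : ℕ}
    (hk₀ : 1 ≤ k₀) (hfull : layer k₀ hk₀ G ≤ layer k₀ hk₀ Γ) : ∀ k : ℕ, k₀ ≤ k → ∀ g ∈ G,
      Dv k ((g : Matrix ι ι ℤ_[p]) - 1) →
      ∃ γ ∈ Γ, Dv k ((γ : Matrix ι ι ℤ_[p]) - 1) ∧
        Dv (k + 1) ((γ : Matrix ι ι ℤ_[p]) - (g : Matrix ι ι ℤ_[p])) := by
  intro k hkk
  induction k, hkk using Nat.le_induction with
  | base =>
    rintro g hg ⟨Y, hY⟩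
    have h1 : rd Y ∈ layer k₀ hk₀ G := ⟨g, hg, Y, by rw [← hY]; abel, rfl⟩
    obtain ⟨γ, hγ, Y', hY', e⟩ := hfull h1
    rw [rd_eq_iff] at e
    refine ⟨γ, hγ, ⟨Y', by rw [hY']; abel⟩, ?_⟩
    have h2 : (γ : Matrix ι ι ℤ_[p]) - (g : Matrix ι ι ℤ_[p])
        = (p : ℤ_[p]) ^ k₀ • (Y' - Y) := by
      rw [hY', smul_sub, ← hY]; abel
    rw [h2]
    exact e.psmul k₀
  | succ k hkk ih =>
    have hk : 1 ≤ k := hk₀.trans hkk
    rintro g hg ⟨Y, hY⟩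
    obtain ⟨g', hg', Z, hZ⟩ := hsat k hk g hg Y (by rw [← hY]; abel)
    obtain ⟨γ, hγ, h1, W, hW⟩ := ih g' hg' ⟨Y + (p : ℤ_[p]) • Z, by rw [hZ]; abel⟩
    set Y' : Matrix ι ι ℤ_[p] := Y + (p : ℤ_[p]) • (Z + W) with hY'
    have h2 : (γ : Matrix ι ι ℤ_[p]) = 1 + (p : ℤ_[p]) ^ k • Y' := by
      have : (γ : Matrix ι ι ℤ_[p]) = (g' : Matrix ι ι ℤ_[p]) + (p : ℤ_[p]) ^ (k + 1) • W := by
        rw [← hW]; abel
      rw [this, hZ, hY']
      simp only [smul_add, smul_smul, pow_succ]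
      abel
    have h3 := pow_level hk hp3 Y'
    rw [← h2] at h3
    have h4 : Dv (k + 2) (1 + (p : ℤ_[p]) ^ (k + 1) • Y' - (g : Matrix ι ι ℤ_[p])) := by
      refine ⟨Z + W, ?_⟩
      have : (g : Matrix ι ι ℤ_[p]) = 1 + (p : ℤ_[p]) ^ (k + 1) • Y := by rw [← hY]; abel
      rw [this, hY']
      simp only [smul_add, smul_smul, pow_succ]
      abel
    have h5 : Dv (k + 2) ((γ : Matrix ι ι ℤ_[p]) ^ p - (g : Matrix ι ι ℤ_[p])) := by
      have := h3.add h4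
      convert this using 1
      abel
    refine ⟨γ ^ p, Γ.pow_mem hγ p, ?_, ?_⟩
    · rw [Units.val_pow_eq_pow_val]
      have h6 : Dv (k + 1) ((g : Matrix ι ι ℤ_[p]) - 1) := ⟨Y, hY⟩
      have := (h5.mono (by omega : k + 1 ≤ k + 2)).add h6
      convert this using 1
      abel
    · rw [Units.val_pow_eq_pow_val]
      exact h5

theorem layer_approx (hp3 : 3 ≤ p) {G Γ : Subgroup (GL ι ℤ_[p])} (hsat : Saturated G)
    (hle : Γ ≤ G) {k₀ : ℕ} (hk₀ : 1 ≤ k₀) (hfull : layer k₀ hk₀ G ≤ layer k₀ hk₀ Γ)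
    (g : GL ι ℤ_[p]) (hg : g ∈ G) (h1 : Dv k₀ ((g : Matrix ι ι ℤ_[p]) - 1)) : ∀ j : ℕ,
      ∃ γ ∈ Γ, Dv (j + k₀) ((γ : Matrix ι ι ℤ_[p]) - (g : Matrix ι ι ℤ_[p])) := by
  intro j
  induction j with
  | zero =>
    refine ⟨1, Γ.one_mem, ?_⟩
    have := h1.neg
    rw [zero_add]
    convert this using 1
    rw [Units.val_one]; abel
  | succ j ih =>
    obtain ⟨γ, hγ, hd⟩ := ih
    have e1 : ((γ⁻¹ : GL ι ℤ_[p]) : Matrix ι ι ℤ_[p]) * (γ : Matrix ι ι ℤ_[p]) = 1 := by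
      rw [← Units.val_mul, inv_mul_cancel, Units.val_one]
    have e2 : (γ : Matrix ι ι ℤ_[p]) * ((γ⁻¹ : GL ι ℤ_[p]) : Matrix ι ι ℤ_[p]) = 1 := by
      rw [← Units.val_mul, mul_inv_cancel, Units.val_one]
    have h2 : Dv (j + k₀) (((γ⁻¹ * g : GL ι ℤ_[p]) : Matrix ι ι ℤ_[p]) - 1) := by
      have := (hd.mul_left ((γ⁻¹ : GL ι ℤ_[p]) : Matrix ι ι ℤ_[p])).neg
      convert this using 1
      rw [Units.val_mul, mul_sub, e1]; abel
    obtain ⟨δ, hδ, -, h3⟩ := layer_surj hp3 hsat hk₀ hfull (j + k₀) (by omega) (γ⁻¹ * g)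
      (G.mul_mem (G.inv_mem (hle hγ)) hg) h2
    refine ⟨γ * δ, Γ.mul_mem hγ hδ, ?_⟩
    have h4 := h3.mul_left (γ : Matrix ι ι ℤ_[p])
    have e3 : j + 1 + k₀ = j + k₀ + 1 := by omega
    rw [e3]
    convert h4 using 1
    rw [Units.val_mul, Units.val_mul, mul_sub, ← mul_assoc, e2, one_mul]

theorem eq_zero_of_forall_Dv {A : Matrix ι ι ℤ_[p]} (h : ∀ k, Dv k A) : A = 0 := by
  ext i j
  rw [Matrix.zero_apply]
  by_contra hne
  obtain ⟨W, hW⟩ := h ((A i j).valuation + 1)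
  have h1 : A i j = (p : ℤ_[p]) ^ ((A i j).valuation + 1) * W i j := by
    have := congrFun (congrFun hW i) j
    rwa [Matrix.smul_apply, smul_eq_mul] at this
  have h2 : (p : ℤ_[p]) ^ ((A i j).valuation + 1) ∣ A i j := ⟨_, h1⟩
  rw [← Ideal.mem_span_singleton, PadicInt.mem_span_pow_iff_le_valuation _ hne] at h2
  omega

theorem layer_succ_le {G : Subgroup (GL ι ℤ_[p])} (hsat : Saturated G) {k : ℕ} (hk : 1 ≤ k) :
    layer (k + 1) (hk.trans (Nat.le_succ k)) G ≤ layer k hk G := by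
  rintro X ⟨g, hg, Y, hY, rfl⟩
  obtain ⟨g', hg', Z, hZ⟩ := hsat k hk g hg Y hY
  exact ⟨g', hg', _, hZ, by rw [rd_add, rd_psmul, add_zero]⟩

theorem layer_le_succ (hp3 : 3 ≤ p) {G : Subgroup (GL ι ℤ_[p])} {k : ℕ} (hk : 1 ≤ k) :
    layer k hk G ≤ layer (k + 1) (hk.trans (Nat.le_succ k)) G := by
  rintro X ⟨g, hg, Y, hY, rfl⟩
  obtain ⟨W, hW⟩ := pow_level hk hp3 Y
  rw [← hY, sub_eq_iff_eq_add] at hW
  refine ⟨g ^ p, G.pow_mem hg p, Y + (p : ℤ_[p]) • W, ?_, ?_⟩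
  · rw [Units.val_pow_eq_pow_val, hW, smul_add, smul_smul, ← pow_succ]
    abel
  · rw [rd_add, rd_psmul, add_zero]

theorem layer_eq_lieMod (hp3 : 3 ≤ p) {G : Subgroup (GL ι ℤ_[p])} (hsat : Saturated G) :
    ∀ (k : ℕ) (hk : 1 ≤ k), layer k hk G = lieMod G := by
  intro k hk
  induction k, hk using Nat.le_induction with
  | base =>
    ext X
    constructor
    · rintro ⟨g, hg, Y, hY, e⟩
      exact ⟨g, hg, Y, by rw [hY, pow_one], e⟩
    · rintro ⟨g, hg, Y, hY, e⟩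
      exact ⟨g, hg, Y, by rw [hY, pow_one], e⟩
  | succ k hk ih =>
    rw [← ih]
    exact le_antisymm (layer_succ_le hsat hk) (layer_le_succ hp3 hk)

/-- **Dichotomy.** Let `Γ` be a closed group whose commutators lie in the saturated group `G` and
which acts irreducibly on the Lie algebra of `G` modulo `p`. Then the elements of `Γ ∩ G` congruent
to `1` modulo `p` are either only the identity, or exactly the elements of `G` congruent to `1`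
modulo `p ^ k`, for some `k ≥ 1`. -/
theorem dichotomy (hp3 : 3 ≤ p) {G Γ : Subgroup (GL ι ℤ_[p])} (hsat : Saturated G)
    (hcomm : ∀ a ∈ Γ, ∀ b ∈ Γ, a * b * a⁻¹ * b⁻¹ ∈ G) (hcl : PadicClosed Γ)
    (hirr : AdjointIrreducible Γ G) :
    (∀ g ∈ G, g ∈ Γ → Dv 1 ((g : Matrix ι ι ℤ_[p]) - 1) → g = 1) ∨
    ∃ k : ℕ, 1 ≤ k ∧ ∀ g ∈ G, Dv 1 ((g : Matrix ι ι ℤ_[p]) - 1) →
      (g ∈ Γ ↔ Dv k ((g : Matrix ι ι ℤ_[p]) - 1)) := by
  classical
  by_cases htriv : ∀ g ∈ G, g ∈ Γ → Dv 1 ((g : Matrix ι ι ℤ_[p]) - 1) → g = 1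
  · exact Or.inl htriv
  right
  push Not at htriv
  obtain ⟨g₀, hg₀S, hg₀Γ, hg₀1, hg₀⟩ := htriv
  have hex : ∃ k : ℕ, ∃ g ∈ G, g ∈ Γ ∧ Dv 1 ((g : Matrix ι ι ℤ_[p]) - 1) ∧
      ¬ Dv (k + 1) ((g : Matrix ι ι ℤ_[p]) - 1) := by
    by_contra hno
    push Not at hno
    apply hg₀
    have h0 : (g₀ : Matrix ι ι ℤ_[p]) - 1 = 0 := by
      apply eq_zero_of_forall_Dv
      intro k
      exact (hno k g₀ hg₀S hg₀Γ hg₀1).mono (by omega)
    exact Units.ext (sub_eq_zero.1 h0)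
  set k := Nat.find hex with hkdef
  obtain ⟨g₁, hg₁S, hg₁Γ, hg₁1, hg₁⟩ := Nat.find_spec hex
  rw [← hkdef] at hg₁
  have hmin : ∀ g ∈ G, g ∈ Γ → Dv 1 ((g : Matrix ι ι ℤ_[p]) - 1) →
      Dv k ((g : Matrix ι ι ℤ_[p]) - 1) := by
    intro g hgS hgΓ hg1
    rcases Nat.eq_zero_or_pos k with h0 | hpos
    · rw [h0]; exact hg1.mono (by omega)
    · by_contra hno
      have hlt : k - 1 < Nat.find hex := by omega
      refine Nat.find_min hex hlt ⟨g, hgS, hgΓ, hg1, ?_⟩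
      rwa [Nat.sub_add_cancel hpos]
  have hk : 1 ≤ k := by
    by_contra h0
    have h0' : k = 0 := by omega
    rw [h0', zero_add] at hg₁
    exact hg₁ hg₁1
  have hle : layer k hk (Γ ⊓ G) ≤ lieMod G := by
    rw [← layer_eq_lieMod hp3 hsat k hk]
    rintro X ⟨g, hg, Y, hY, e⟩
    exact ⟨g, (Subgroup.mem_inf.1 hg).2, Y, hY, e⟩
  have hst : ∀ γ ∈ Γ, ∀ X ∈ layer k hk (Γ ⊓ G),
      ((red γ : GL ι (ZMod p)) : Matrix ι ι (ZMod p)) * X *
      (((red γ)⁻¹ : GL ι (ZMod p)) : Matrix ι ι (ZMod p)) ∈ layer k hk (Γ ⊓ G) := by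
    rintro γ hγ _ ⟨g, hg, Y, hY, rfl⟩
    obtain ⟨hg1, hg2⟩ := Subgroup.mem_inf.1 hg
    have h1 : γ * g * γ⁻¹ ∈ G := by
      have := G.mul_mem (hcomm γ hγ g hg1) hg2
      rwa [inv_mul_cancel_right] at this
    refine ⟨γ * g * γ⁻¹, Subgroup.mem_inf.2 ⟨Γ.mul_mem (Γ.mul_mem hγ hg1) (Γ.inv_mem hγ), h1⟩,
      _, conj_one_add_pow hY, ?_⟩
    rw [rd_mul, rd_mul, rd_coe, rd_inv_coe]
  rcases hirr _ hle hst with h | h
  · exfalso
    obtain ⟨Y, hY⟩ := hmin g₁ hg₁S hg₁Γ hg₁1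
    have h1 : rd Y ∈ layer k hk (Γ ⊓ G) :=
      ⟨g₁, Subgroup.mem_inf.2 ⟨hg₁Γ, hg₁S⟩, Y, by rw [← hY]; abel, rfl⟩
    rw [h, AddSubgroup.mem_bot, rd_eq_zero_iff] at h1
    obtain ⟨W, hW⟩ := h1
    apply hg₁
    refine ⟨W, ?_⟩
    rw [hY, hW, pow_one, smul_smul, pow_succ]
  · refine ⟨k, hk, fun g hgS hg1 => ⟨fun hgΓ => hmin g hgS hgΓ hg1, fun hgk => ?_⟩⟩
    have hfull : layer k hk G ≤ layer k hk (Γ ⊓ G) := by
      rw [h, layer_eq_lieMod hp3 hsat k hk]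
    refine hcl g fun j => ?_
    obtain ⟨γ, hγ, hd⟩ := layer_approx hp3 hsat inf_le_right hk hfull g hgS hgk j
    exact ⟨γ, (Subgroup.mem_inf.1 hγ).1, hd.mono (by omega)⟩

/-- In the first case of the dichotomy the congruence kernel of `Γ` is central. -/
theorem central_of_trivial {G Γ : Subgroup (GL ι ℤ_[p])}
    (hcomm : ∀ a ∈ Γ, ∀ b ∈ Γ, a * b * a⁻¹ * b⁻¹ ∈ G)
    (h : ∀ g ∈ G, g ∈ Γ → Dv 1 ((g : Matrix ι ι ℤ_[p]) - 1) → g = 1) :
    ∀ a ∈ Γ, Dv 1 ((a : Matrix ι ι ℤ_[p]) - 1) → ∀ b ∈ Γ, a * b = b * a := by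
  intro a ha h1 b hb
  have h2 : a * b * a⁻¹ * b⁻¹ ∈ Γ :=
    Γ.mul_mem (Γ.mul_mem (Γ.mul_mem ha hb) (Γ.inv_mem ha)) (Γ.inv_mem hb)
  have h3 : Dv 1 (((a * b * a⁻¹ * b⁻¹ : GL ι ℤ_[p]) : Matrix ι ι ℤ_[p]) - 1) := by
    rw [← mem_ker_red] at h1 ⊢
    rw [MonoidHom.mem_ker] at h1 ⊢
    rw [map_mul, map_mul, map_mul, map_inv, map_inv, h1, one_mul, inv_one, mul_one,
      mul_inv_cancel]
  have h4 := h _ (hcomm a ha b hb) h2 h3
  rw [mul_inv_eq_one, mul_inv_eq_iff_eq_mul] at h4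
  exact h4

/-- Commutators of similitudes are isometries. -/
theorem comm_mem_SOrth {S : Matrix ι ι ℤ_[p]} {a b : GL ι ℤ_[p]} (ha : IsSimilitude S a)
    (hb : IsSimilitude S b) : a * b * a⁻¹ * b⁻¹ ∈ SOrth S := by
  have e1 : a * b * a⁻¹ * b⁻¹ = (a * b) * (b * a)⁻¹ := by group
  rw [e1]
  obtain ⟨c, hc⟩ := ha
  obtain ⟨d, hd⟩ := hb
  refine div_mem_SOrth ?_ ?_
  · rw [Units.val_mul, Units.val_mul, Matrix.transpose_mul, Matrix.transpose_mul]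
    set A := (a : Matrix ι ι ℤ_[p])
    set D := (b : Matrix ι ι ℤ_[p])
    calc Dᵀ * Aᵀ * S * (A * D) = Dᵀ * (Aᵀ * S * A) * D := by simp only [mul_assoc]
      _ = c • (Dᵀ * S * D) := by rw [hc, Matrix.mul_smul, Matrix.smul_mul]
      _ = (c * d) • S := by rw [hd, smul_smul]
      _ = d • (Aᵀ * S * A) := by rw [hc, smul_smul, mul_comm]
      _ = Aᵀ * (Dᵀ * S * D) * A := by rw [hd, Matrix.mul_smul, Matrix.smul_mul]
      _ = Aᵀ * Dᵀ * S * (D * A) := by simp only [mul_assoc]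
  · rw [Units.val_mul, Units.val_mul, Matrix.det_mul, Matrix.det_mul, mul_comm]

/-- The reduction of `Γ` acts irreducibly on the Lie algebra of the isometry group of the
reduction of `S`. -/
def IrreducibleOnSp (Γ : Subgroup (GL ι ℤ_[p])) (S : Matrix ι ι ℤ_[p]) : Prop :=
  ∀ W : AddSubgroup (Matrix ι ι (ZMod p)), (∀ X ∈ W, X ∈ IsoLie (rd S)) →
    (∀ γ ∈ Γ, ∀ X ∈ W, ((red γ : GL ι (ZMod p)) : Matrix ι ι (ZMod p)) * X *
      (((red γ)⁻¹ : GL ι (ZMod p)) : Matrix ι ι (ZMod p)) ∈ W) →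
    W = ⊥ ∨ ∀ X ∈ IsoLie (rd S), X ∈ W

theorem adjointIrreducible_of_sp {S : Matrix ι ι ℤ_[p]} {Γ : Subgroup (GL ι ℤ_[p])}
    (h : IrreducibleOnSp Γ S) : AdjointIrreducible Γ (SOrth S) := by
  intro W hW hst
  rcases h W (fun X hX => isoLie_of_mem (hW hX)) hst with h1 | h1
  · exact Or.inl h1
  · right
    refine le_antisymm hW fun X hX => h1 X (isoLie_of_mem hX)

/-- For an alternating form irreducibility implies non-triviality. -/
theorem irreducibleOnIsoLie_of_sp (hp3 : 3 ≤ p) {S : Matrix ι ι ℤ_[p]} (hS : IsUnit S.det)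
    (hT : Sᵀ = -S) [Nonempty ι] {Γ : Subgroup (GL ι ℤ_[p])}
    (h : IrreducibleOnSp Γ S) : IrreducibleOnIsoLie Γ S := by
  refine ⟨h, ?_⟩
  by_contra hno
  push Not at hno
  have h2z := two_ne_zero_zmod hp3
  have hSu : IsUnit (rd S).det := by
    have : (rd S).det = PadicInt.toZMod S.det := by rw [rd, ← RingHom.map_det]
    rw [this]; exact hS.map _
  have hTr : (rd S)ᵀ = -rd S := by
    rw [← rd_transpose, hT]; exact map_neg _ _
  obtain ⟨U, hU1, hU2⟩ : ∃ U : Matrix ι ι (ZMod p), rd S * U = 1 ∧ U * rd S = 1 :=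
    ⟨(rd S)⁻¹, Matrix.mul_nonsing_inv _ hSu, Matrix.nonsing_inv_mul _ hSu⟩
  have hUt : Uᵀ * rd S = -1 := by
    have h1 : Uᵀ * (rd S)ᵀ = 1 := by rw [← Matrix.transpose_mul, hU1, Matrix.transpose_one]
    rw [hTr, Matrix.mul_neg] at h1
    rw [← h1, neg_neg]
  -- the matrices `U E_ii`
  have hmem : ∀ i : ι, U * Matrix.single i i (1 : ZMod p) ∈ IsoLie (rd S) := by
    intro i
    change (U * Matrix.single i i (1 : ZMod p))ᵀ * rd S
      + rd S * (U * Matrix.single i i (1 : ZMod p)) = 0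
    rw [Matrix.transpose_mul, Matrix.transpose_single, mul_assoc, hUt, ← mul_assoc, hU1, one_mul,
      Matrix.mul_neg, mul_one, neg_add_cancel]
  have i : ι := Classical.arbitrary ι
  obtain ⟨j, hj⟩ : ∃ j : ι, j ≠ i := by
    by_contra hall
    push Not at hall
    have hsub : Subsingleton ι := ⟨fun a b => by rw [hall a, hall b]⟩
    have h1 : rd S = 0 := by
      ext a b
      have hab : a = b := Subsingleton.elim a b
      subst hab
      have h2 := congrFun (congrFun hTr a) a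
      rw [Matrix.transpose_apply, Matrix.neg_apply] at h2
      have h3 : (2 : ZMod p) * rd S a a = 0 := by
        rw [two_mul]; nth_rw 1 [h2]; exact neg_add_cancel _
      rw [Matrix.zero_apply]
      exact (mul_eq_zero.1 h3).resolve_left h2z
    rw [h1, zero_mul] at hU1
    have := congrFun (congrFun hU1 i) i
    rw [Matrix.zero_apply, Matrix.one_apply_eq] at this
    exact zero_ne_one this
  rcases h (AddSubgroup.zmultiples (U * Matrix.single i i (1 : ZMod p))) (by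
      intro X hX
      obtain ⟨n, rfl⟩ := AddSubgroup.mem_zmultiples_iff.1 hX
      exact isoLie_zsmul (hmem i) n) (by
      intro γ hγ X hX
      obtain ⟨n, rfl⟩ := AddSubgroup.mem_zmultiples_iff.1 hX
      rw [hno γ hγ _ (isoLie_zsmul (hmem i) n)]
      exact AddSubgroup.zsmul_mem_zmultiples _ n) with h1 | h1
  · rw [AddSubgroup.zmultiples_eq_bot] at h1
    have h2 := congrArg (rd S * ·) h1
    simp only [← mul_assoc, hU1, one_mul, mul_zero] at h2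
    have := congrFun (congrFun h2 i) i
    simp at this
  · obtain ⟨n, hn⟩ := AddSubgroup.mem_zmultiples_iff.1 (h1 _ (hmem j))
    have h2 := congrArg (rd S * ·) hn
    simp only [mul_smul_comm, ← mul_assoc, hU1, one_mul] at h2
    have := congrFun (congrFun h2 j) j
    simp [Matrix.smul_apply, hj.symm] at this

end Pool.Agent.X279.IM
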