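import Mathlib

/-!
# Bivectors of totally isotropic planes span all bivectors

`q` is a symmetric bilinear form on `V` whose restriction to the span of `e1, f1, e2, f2` is the
sum of two hyperbolic planes. A submodule containing all bivectors `wd x y` with `x, y` spanning a
totally isotropic subspace contains all bivectors.
-/

namespace Pool.Agent.X279.IM

variable {F V M : Type*} [Field F] [AddCommGroup V] [Module F V] [AddCommGroup M] [Module F M]

structure TwoPlanes (q : V →ₗ[F] V →ₗ[F] F) (e1 f1 e2 f2 : V) : Prop where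
  e1e1 : q e1 e1 = 0
  f1f1 : q f1 f1 = 0
  e1f1 : q e1 f1 = 1
  e2e2 : q e2 e2 = 0
  f2f2 : q f2 f2 = 0
  e2f2 : q e2 f2 = 1
  e1e2 : q e1 e2 = 0
  e1f2 : q e1 f2 = 0
  f1e2 : q f1 e2 = 0
  f1f2 : q f1 f2 = 0

/-- A submodule containing the two planes and everything orthogonal to them is everything. -/
theorem mem_of_planes {q : V →ₗ[F] V →ₗ[F] F} (hq : ∀ x y, q x y = q y x) {e1 f1 e2 f2 : V}
    (h : TwoPlanes q e1 f1 e2 f2) (L : Submodule F V) (h1 : e1 ∈ L) (h2 : f1 ∈ L) (h3 : e2 ∈ L)
    (h4 : f2 ∈ L)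
    (hw : ∀ w, q e1 w = 0 → q f1 w = 0 → q e2 w = 0 → q f2 w = 0 → w ∈ L) (v : V) : v ∈ L := by
  obtain ⟨a1, a2, a3, a4, a5, a6, a7, a8, a9, a10⟩ := h
  have b1 := hq f1 e1
  have b2 := hq f2 e2
  have b3 := hq e2 e1
  have b4 := hq f2 e1
  have b5 := hq e2 f1
  have b6 := hq f2 f1
  have key : v - q f1 v • e1 - q e1 v • f1 - q f2 v • e2 - q e2 v • f2 ∈ L := by
    apply hw
    · simp only [map_sub, map_smul, smul_eq_mul, a1, a3, a7, a8]; ring
    · simp only [map_sub, map_smul, smul_eq_mul, b1, a2, a3, a9, a10]; ring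
    · simp only [map_sub, map_smul, smul_eq_mul, b3, b5, a7, a9, a4, a6]; ring
    · simp only [map_sub, map_smul, smul_eq_mul, b4, b6, a8, a10, b2, a6, a5]; ring
  have : v = (v - q f1 v • e1 - q e1 v • f1 - q f2 v • e2 - q e2 v • f2) + q f1 v • e1
      + q e1 v • f1 + q f2 v • e2 + q e2 v • f2 := by abel
  rw [this]
  exact L.add_mem (L.add_mem (L.add_mem (L.add_mem key (L.smul_mem _ h1)) (L.smul_mem _ h2))
    (L.smul_mem _ h3)) (L.smul_mem _ h4)

theorem wd_mem (h2 : (2 : F) ≠ 0) {q : V →ₗ[F] V →ₗ[F] F} (hq : ∀ x y, q x y = q y x)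
    {wd : V →ₗ[F] V →ₗ[F] M} (halt : ∀ x, wd x x = 0) (P : Submodule F M)
    (hP : ∀ x y, q x x = 0 → q y y = 0 → q x y = 0 → wd x y ∈ P) {e1 f1 e2 f2 : V}
    (h : TwoPlanes q e1 f1 e2 f2) (v v' : V) : wd v v' ∈ P := by
  have hanti : ∀ x y, wd x y = - wd y x := by
    intro x y
    have := halt (x + y)
    simp only [map_add, LinearMap.add_apply, halt, zero_add, add_zero] at this
    exact eq_neg_of_add_eq_zero_left (by rw [add_comm]; exact this)
  have hswap : ∀ {x y}, wd x y ∈ P → wd y x ∈ P := by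
    intro x y hxy
    rw [hanti]; exact P.neg_mem hxy
  obtain ⟨a1, a2, a3, a4, a5, a6, a7, a8, a9, a10⟩ := h
  have b1 := (hq f1 e1).trans a3
  have b2 := (hq f2 e2).trans a6
  have b3 := (hq e2 e1).trans a7
  have b4 := (hq f2 e1).trans a8
  have b5 := (hq e2 f1).trans a9
  have b6 := (hq f2 f1).trans a10
  have c1 : wd e1 e2 ∈ P := hP _ _ a1 a4 a7
  have c2 : wd e1 f2 ∈ P := hP _ _ a1 a5 a8
  have c3 : wd f1 e2 ∈ P := hP _ _ a2 a4 a9
  have c4 : wd f1 f2 ∈ P := hP _ _ a2 a5 a10
  have c3' := hswap c3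
  have c4' := hswap c4
  have c1' := hswap c1
  have c2' := hswap c2
  -- the difference and the sum of the two hyperbolic bivectors
  have d1 : wd e1 f1 - wd e2 f2 ∈ P := by
    have h := hP (e1 + e2) (f1 - f2)
      (by simp only [map_add, LinearMap.add_apply, a1, a4, a7, b3]; ring)
      (by simp only [map_sub, LinearMap.sub_apply, a2, a5, a10, b6]; ring)
      (by simp only [map_add, map_sub, LinearMap.add_apply, a3, a8, b5, a6]; ring)
    simp only [map_add, map_sub, LinearMap.add_apply] at h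
    have e : wd e1 f1 - wd e2 f2 = (wd e1 f1 + wd e2 f1 - (wd e1 f2 + wd e2 f2))
        - wd e2 f1 + wd e1 f2 := by abel
    rw [e]
    exact P.add_mem (P.sub_mem h c3') c2
  have d2 : wd e1 f1 + wd e2 f2 ∈ P := by
    have h := hP (e1 + f2) (f1 - e2)
      (by simp only [map_add, LinearMap.add_apply, a1, a5, a8, b4]; ring)
      (by simp only [map_sub, LinearMap.sub_apply, a2, a4, a9, b5]; ring)
      (by simp only [map_add, map_sub, LinearMap.add_apply, a3, a7, b6, b2]; ring)
    simp only [map_add, map_sub, LinearMap.add_apply] at h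
    have e : wd e1 f1 + wd e2 f2 = (wd e1 f1 + wd f2 f1 - (wd e1 e2 + wd f2 e2))
        - wd f2 f1 + wd e1 e2 := by
      rw [hanti e2 f2]; abel
    rw [e]
    exact P.add_mem (P.sub_mem h c4') c1
  have d3 : wd e1 f1 ∈ P := by
    have e : wd e1 f1 = (2 : F)⁻¹ • ((wd e1 f1 - wd e2 f2) + (wd e1 f1 + wd e2 f2)) := by
      have : (wd e1 f1 - wd e2 f2) + (wd e1 f1 + wd e2 f2) = (2 : F) • wd e1 f1 := by
        rw [two_smul]; abel
      rw [this, smul_smul, inv_mul_cancel₀ h2, one_smul]
    rw [e]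
    exact P.smul_mem _ (P.add_mem d1 d2)
  have d4 : wd e2 f2 ∈ P := by
    have e : wd e2 f2 = (wd e1 f1 + wd e2 f2) - wd e1 f1 := by abel
    rw [e]; exact P.sub_mem d2 d3
  have half : ∀ t : F, t - 2 * (t * (2 : F)⁻¹) = 0 := by
    intro t
    rw [mul_comm t, ← mul_assoc, mul_inv_cancel₀ h2, one_mul, sub_self]
  -- bivectors with a vector orthogonal to the planes
  have g1 : ∀ w, q e1 w = 0 → q f1 w = 0 → q e2 w = 0 → q f2 w = 0 →
      wd e1 w ∈ P ∧ wd f1 w ∈ P ∧ wd e2 w ∈ P ∧ wd f2 w ∈ P := by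
    intro w w1 w2 w3 w4
    have w1' := (hq w e1).trans w1
    have w2' := (hq w f1).trans w2
    have w3' := (hq w e2).trans w3
    have w4' := (hq w f2).trans w4
    set t := q w w * (2 : F)⁻¹ with ht
    have hy : q (w + e2 - t • f2) (w + e2 - t • f2) = 0 := by
      simp only [map_add, map_sub, map_smul, LinearMap.add_apply, LinearMap.sub_apply,
        LinearMap.smul_apply, smul_eq_mul, w3, w4, w3', w4', a4, a5, a6, b2]
      have := half (q w w)
      rw [← ht] at this
      linear_combination this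
    have hy' : q (w + e1 - t • f1) (w + e1 - t • f1) = 0 := by
      simp only [map_add, map_sub, map_smul, LinearMap.add_apply, LinearMap.sub_apply,
        LinearMap.smul_apply, smul_eq_mul, w1, w2, w1', w2', a1, a2, a3, b1]
      have := half (q w w)
      rw [← ht] at this
      linear_combination this
    have k1 := hP e1 (w + e2 - t • f2) a1 hy
      (by simp only [map_add, map_sub, map_smul, smul_eq_mul, w1, a7, a8]; ring)
    have k2 := hP f1 (w + e2 - t • f2) a2 hy
      (by simp only [map_add, map_sub, map_smul, smul_eq_mul, w2, a9, a10]; ring)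
    have k3 := hP e2 (w + e1 - t • f1) a4 hy'
      (by simp only [map_add, map_sub, map_smul, smul_eq_mul, w3, b3, b5]; ring)
    have k4 := hP f2 (w + e1 - t • f1) a5 hy'
      (by simp only [map_add, map_sub, map_smul, smul_eq_mul, w4, b4, b6]; ring)
    simp only [map_add, map_sub, map_smul] at k1 k2 k3 k4
    refine ⟨?_, ?_, ?_, ?_⟩
    · have e : wd e1 w = (wd e1 w + wd e1 e2 - t • wd e1 f2) - wd e1 e2 + t • wd e1 f2 := by abel
      rw [e]; exact P.add_mem (P.sub_mem k1 c1) (P.smul_mem _ c2)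
    · have e : wd f1 w = (wd f1 w + wd f1 e2 - t • wd f1 f2) - wd f1 e2 + t • wd f1 f2 := by abel
      rw [e]; exact P.add_mem (P.sub_mem k2 c3) (P.smul_mem _ c4)
    · have e : wd e2 w = (wd e2 w + wd e2 e1 - t • wd e2 f1) - wd e2 e1 + t • wd e2 f1 := by abel
      rw [e]; exact P.add_mem (P.sub_mem k3 c1') (P.smul_mem _ c3')
    · have e : wd f2 w = (wd f2 w + wd f2 e1 - t • wd f2 f1) - wd f2 e1 + t • wd f2 f1 := by abel
      rw [e]; exact P.add_mem (P.sub_mem k4 c2') (P.smul_mem _ c4')
  have hpl : TwoPlanes q e1 f1 e2 f2 := ⟨a1, a2, a3, a4, a5, a6, a7, a8, a9, a10⟩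
  have E1 : ∀ v, wd e1 v ∈ P := fun v =>
    mem_of_planes hq hpl (P.comap (wd e1)) (by rw [Submodule.mem_comap, halt]; exact P.zero_mem)
      d3 c1 c2 (fun w w1 w2 w3 w4 => (g1 w w1 w2 w3 w4).1) v
  have F1 : ∀ v, wd f1 v ∈ P := fun v =>
    mem_of_planes hq hpl (P.comap (wd f1)) (hswap d3)
      (by rw [Submodule.mem_comap, halt]; exact P.zero_mem)
      c3 c4 (fun w w1 w2 w3 w4 => (g1 w w1 w2 w3 w4).2.1) v
  have E2 : ∀ v, wd e2 v ∈ P := fun v =>
    mem_of_planes hq hpl (P.comap (wd e2)) c1' c3'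
      (by rw [Submodule.mem_comap, halt]; exact P.zero_mem)
      d4 (fun w w1 w2 w3 w4 => (g1 w w1 w2 w3 w4).2.2.1) v
  have F2 : ∀ v, wd f2 v ∈ P := fun v =>
    mem_of_planes hq hpl (P.comap (wd f2)) c2' c4' (hswap d4)
      (by rw [Submodule.mem_comap, halt]; exact P.zero_mem)
      (fun w w1 w2 w3 w4 => (g1 w w1 w2 w3 w4).2.2.2) v
  -- bivectors of the orthogonal complement
  have W : ∀ w, q e1 w = 0 → q f1 w = 0 → q e2 w = 0 → q f2 w = 0 → ∀ v, wd w v ∈ P := by
    intro w w1 w2 w3 w4 v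
    refine mem_of_planes hq hpl (P.comap (wd w)) (hswap (E1 w)) (hswap (F1 w)) (hswap (E2 w))
      (hswap (F2 w)) ?_ v
    intro u u1 u2 u3 u4
    have w1' := (hq w e1).trans w1
    have w2' := (hq w f1).trans w2
    have w3' := (hq w e2).trans w3
    have w4' := (hq w f2).trans w4
    have u1' := (hq u e1).trans u1
    have u2' := (hq u f1).trans u2
    have u3' := (hq u e2).trans u3
    have u4' := (hq u f2).trans u4
    set s := q w w * (2 : F)⁻¹ with hs
    set t := q u u * (2 : F)⁻¹ with ht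
    set r := q w u with hr
    have hx : q (w + e1 - s • f1) (w + e1 - s • f1) = 0 := by
      simp only [map_add, map_sub, map_smul, LinearMap.add_apply, LinearMap.sub_apply,
        LinearMap.smul_apply, smul_eq_mul, w1, w2, w1', w2', a1, a2, a3, b1]
      have := half (q w w)
      rw [← hs] at this
      linear_combination this
    have hy : q (u - r • f1 + e2 - t • f2) (u - r • f1 + e2 - t • f2) = 0 := by
      simp only [map_add, map_sub, map_smul, LinearMap.add_apply, LinearMap.sub_apply,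
        LinearMap.smul_apply, smul_eq_mul, u2, u3, u4, u2', u3', u4', a2, a4, a5, a6, b2, a9,
        a10, b5, b6]
      have := half (q u u)
      rw [← ht] at this
      linear_combination this
    have hxy : q (w + e1 - s • f1) (u - r • f1 + e2 - t • f2) = 0 := by
      simp only [map_add, map_sub, map_smul, LinearMap.add_apply, LinearMap.sub_apply,
        LinearMap.smul_apply, smul_eq_mul, w2', w3', w4', u1, u2, a2, a3, a7, a8, a9, a10, ← hr]
      ring
    have k := hP _ _ hx hy hxy
    simp only [map_add, map_sub, map_smul, LinearMap.add_apply, LinearMap.sub_apply,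
      LinearMap.smul_apply] at k
    rw [Submodule.mem_comap]
    have m1 := P.sub_mem (P.add_mem (E1 u) (P.zero_mem)) (P.smul_mem s (F1 u))
    have m2 : ∀ z, wd w z + wd e1 z - s • wd f1 z - wd w z ∈ P := by
      intro z
      have e : wd w z + wd e1 z - s • wd f1 z - wd w z = wd e1 z - s • wd f1 z := by abel
      rw [e]; exact P.sub_mem (E1 z) (P.smul_mem _ (F1 z))
    have n1 := hswap (F1 w)
    have n2 := hswap (E2 w)
    have n3 := hswap (F2 w)
    have tot := P.sub_mem (P.add_mem (P.sub_mem (m2 u) (P.smul_mem r (P.add_mem (m2 f1) n1)))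
      (P.add_mem (m2 e2) n2)) (P.smul_mem t (P.add_mem (m2 f2) n3))
    have fin := P.sub_mem k tot
    convert fin using 1
    simp only [smul_add, smul_sub]
    abel
  -- all bivectors
  set Q : Submodule F V :=
    { carrier := {v | ∀ v', wd v v' ∈ P}
      add_mem' := by
        intro a b ha hb v'
        rw [map_add, LinearMap.add_apply]
        exact P.add_mem (ha v') (hb v')
      zero_mem' := by intro v'; rw [map_zero, LinearMap.zero_apply]; exact P.zero_mem
      smul_mem' := by
        intro c a ha v'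
        rw [map_smul, LinearMap.smul_apply]
        exact P.smul_mem _ (ha v') } with hQ
  exact mem_of_planes hq hpl Q E1 F1 E2 F2 W v v'

end Pool.Agent.X279.IM
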