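import Pool.Agent.X279.IM.Group
import Pool.Agent.X279.IM.Span

/-!
# Special orthogonal groups over `Z_p`
-/

namespace Pool.Agent.X279.IM

set_option linter.unusedSectionVars false

open Matrix

variable {ι : Type} [Fintype ι] [DecidableEq ι] {p : ℕ} [Fact p.Prime]

/-- The special orthogonal group of the symmetric matrix `S` over `Z_p`. -/
def SOrth (S : Matrix ι ι ℤ_[p]) : Subgroup (GL ι ℤ_[p]) where
  carrier := {g | (g : Matrix ι ι ℤ_[p])ᵀ * S * (g : Matrix ι ι ℤ_[p]) = S ∧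
    (g : Matrix ι ι ℤ_[p]).det = 1}
  one_mem' := by simp
  mul_mem' := by
    rintro g h ⟨hg, hg'⟩ ⟨hh, hh'⟩
    refine ⟨?_, ?_⟩
    · rw [Units.val_mul, Matrix.transpose_mul]
      calc _ = (h : Matrix ι ι ℤ_[p])ᵀ * ((g : Matrix ι ι ℤ_[p])ᵀ * S * (g : Matrix ι ι ℤ_[p]))
          * (h : Matrix ι ι ℤ_[p]) := by simp only [mul_assoc]
        _ = S := by rw [hg, hh]
    · rw [Units.val_mul, Matrix.det_mul, hg', hh', one_mul]
  inv_mem' := by
    rintro g ⟨hg, hg'⟩
    have e1 : (g : Matrix ι ι ℤ_[p]) * ((g⁻¹ : GL ι ℤ_[p]) : Matrix ι ι ℤ_[p]) = 1 := by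
      rw [← Units.val_mul, mul_inv_cancel, Units.val_one]
    set h : Matrix ι ι ℤ_[p] := ((g⁻¹ : GL ι ℤ_[p]) : Matrix ι ι ℤ_[p]) with hh
    refine ⟨?_, ?_⟩
    · have e2 : hᵀ * (g : Matrix ι ι ℤ_[p])ᵀ = 1 := by
        rw [← Matrix.transpose_mul, e1, Matrix.transpose_one]
      calc hᵀ * S * h = hᵀ * ((g : Matrix ι ι ℤ_[p])ᵀ * S * (g : Matrix ι ι ℤ_[p])) * h := by
            rw [hg]
        _ = (hᵀ * (g : Matrix ι ι ℤ_[p])ᵀ) * S * ((g : Matrix ι ι ℤ_[p]) * h) := by
            simp only [mul_assoc]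
        _ = S := by rw [e1, e2, one_mul, mul_one]
    · have := congrArg Matrix.det e1
      rw [Matrix.det_mul, hg', one_mul, Matrix.det_one] at this
      exact this

theorem isUnit_of_toZMod {x : ℤ_[p]} (h : PadicInt.toZMod x ≠ 0) : IsUnit x := by
  by_contra hx
  have h1 : x ∈ IsLocalRing.maximalIdeal ℤ_[p] := (IsLocalRing.mem_maximalIdeal _).2 hx
  rw [← PadicInt.ker_toZMod, RingHom.mem_ker] at h1
  exact h h1

theorem isUnit_of_rd {A : Matrix ι ι ℤ_[p]} (h : IsUnit (rd A)) : IsUnit A := by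
  rw [Matrix.isUnit_iff_isUnit_det] at h ⊢
  apply isUnit_of_toZMod
  have : (rd A).det = PadicInt.toZMod A.det := by
    rw [rd, ← RingHom.map_det]
  rw [← this]
  exact h.ne_zero

theorem rd_transpose (A : Matrix ι ι ℤ_[p]) : rd Aᵀ = (rd A)ᵀ := rfl

/-- Cayley transform. -/
theorem cayley {S A H : Matrix ι ι ℤ_[p]} (hS : S.det ≠ 0) (hA : Aᵀ * S + S * A = 0)
    (h1 : (1 + A) * H = 1) : ∃ g ∈ SOrth S, (g : Matrix ι ι ℤ_[p]) = (1 - A) * H := by
  have hA' : S * A = -(Aᵀ * S) := by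
    rw [add_comm] at hA
    exact eq_neg_of_add_eq_zero_left hA
  have k1 : S * (1 - A) = (1 + A)ᵀ * S := by
    rw [mul_sub, mul_one, hA', Matrix.transpose_add, Matrix.transpose_one, add_mul, one_mul]
    abel
  have k2 : (1 - A)ᵀ * S = S * (1 + A) := by
    rw [mul_add, mul_one, hA', Matrix.transpose_sub, Matrix.transpose_one, sub_mul, one_mul]
    abel
  have k3 : Hᵀ * (1 + A)ᵀ = 1 := by rw [← Matrix.transpose_mul, h1, Matrix.transpose_one]
  have k4 : (1 + A) * (1 - A) = (1 - A) * (1 + A) := by noncomm_ring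
  have hdet : (1 - A).det = (1 + A).det := by
    have := congrArg Matrix.det k1
    rw [Matrix.det_mul, Matrix.det_mul, Matrix.det_transpose, mul_comm] at this
    exact mul_right_cancel₀ hS this
  have hd : ((1 - A) * H).det = 1 := by
    rw [Matrix.det_mul, hdet, ← Matrix.det_mul, h1, Matrix.det_one]
  have hu : IsUnit ((1 - A) * H) := by
    rw [Matrix.isUnit_iff_isUnit_det, hd]; exact isUnit_one
  obtain ⟨g, hg⟩ := hu
  refine ⟨g, ⟨?_, by rw [hg]; exact hd⟩, hg⟩
  rw [hg, Matrix.transpose_mul]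
  calc Hᵀ * (1 - A)ᵀ * S * ((1 - A) * H) = Hᵀ * ((1 - A)ᵀ * S) * ((1 - A) * H) := by
        simp only [mul_assoc]
    _ = Hᵀ * (S * ((1 + A) * (1 - A))) * H := by rw [k2]; simp only [mul_assoc]
    _ = Hᵀ * (S * (1 - A)) * ((1 + A) * H) := by rw [k4]; simp only [mul_assoc]
    _ = (Hᵀ * (1 + A)ᵀ) * S := by rw [h1, mul_one, k1]; simp only [mul_assoc]
    _ = S := by rw [k3, one_mul]

theorem psmul_cancel {k : ℕ} {A : Matrix ι ι ℤ_[p]} (h : (p : ℤ_[p]) ^ k • A = 0) : A = 0 := by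
  have hp : (p : ℤ_[p]) ^ k ≠ 0 := pow_ne_zero _ (by
    have : p ≠ 0 := (Fact.out : p.Prime).ne_zero
    exact_mod_cast this)
  ext i j
  have := congrFun (congrFun h i) j
  rw [Matrix.smul_apply, smul_eq_mul, Matrix.zero_apply] at this
  exact (mul_eq_zero.1 this).resolve_left hp

theorem two_ne_zero_zmod (hp3 : 3 ≤ p) : (2 : ZMod p) ≠ 0 := by
  intro h
  have : ((2 : ℕ) : ZMod p) = 0 := by exact_mod_cast h
  rw [ZMod.natCast_eq_zero_iff] at this
  exact absurd (Nat.le_of_dvd (by norm_num) this) (by omega)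

theorem isUnit_smul_one {c : ZMod p} (hc : c ≠ 0) : IsUnit (c • (1 : Matrix ι ι (ZMod p))) := by
  rw [Matrix.isUnit_iff_isUnit_det, Matrix.det_smul, Matrix.det_one, mul_one]
  exact (isUnit_iff_ne_zero.2 hc).pow _

theorem saturated_SOrth (hp3 : 3 ≤ p) {S : Matrix ι ι ℤ_[p]} (hS : S.det ≠ 0) :
    Saturated (SOrth S) := by
  intro k hk g hg Y hY
  have h2z := two_ne_zero_zmod hp3
  set G : Matrix ι ι ℤ_[p] := (g : Matrix ι ι ℤ_[p]) with hG
  have hgS : Gᵀ * S * G = S := hg.1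
  -- `1 + g` is invertible
  have hrdG : rd G = 1 := by
    rw [hY, pow_succ', ← smul_smul, rd_add, rd_psmul, rd_one, add_zero]
  have hrd2 : rd (1 + G) = (2 : ZMod p) • 1 := by
    rw [rd_add, rd_one, hrdG, two_smul]
  have hu : IsUnit (1 + G) := isUnit_of_rd (by rw [hrd2]; exact isUnit_smul_one h2z)
  obtain ⟨w, hw⟩ := hu
  set H : Matrix ι ι ℤ_[p] := ((w⁻¹ : (Matrix ι ι ℤ_[p])ˣ) : Matrix ι ι ℤ_[p]) with hH
  have w1 : (1 + G) * H = 1 := by rw [← hw]; exact w.mul_inv
  have w2 : H * (1 + G) = 1 := by rw [← hw]; exact w.inv_mul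
  set B : Matrix ι ι ℤ_[p] := -(Y * H) with hB
  have hA : (p : ℤ_[p]) ^ (k + 1) • B = (1 - G) * H := by
    rw [hB, hY, smul_neg, ← Matrix.smul_mul]; noncomm_ring
  have hcomm : G * H = H * G := by
    have e1 : H * (G * (1 + G)) * H = H * ((1 + G) * G) * H := by
      congr 2; noncomm_ring
    have e2 : H * (G * (1 + G)) * H = H * G := by
      rw [mul_assoc, mul_assoc, w1, mul_one]
    have e3 : H * ((1 + G) * G) * H = G * H := by
      rw [← mul_assoc H, w2, one_mul]
    rw [← e2, e1, e3]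
  -- `B` is skew
  have hBS : Bᵀ * S + S * B = 0 := by
    apply psmul_cancel (k := k + 1)
    have e : (p : ℤ_[p]) ^ (k + 1) • (Bᵀ * S + S * B)
        = ((1 - G) * H)ᵀ * S + S * ((1 - G) * H) := by
      rw [← hA, smul_add, Matrix.transpose_smul, Matrix.smul_mul, Matrix.mul_smul]
    rw [e]
    have k1 : Hᵀ * (1 + G)ᵀ = 1 := by rw [← Matrix.transpose_mul, w1, Matrix.transpose_one]
    have k5 : (1 - G) * H = H * (1 - G) := by
      rw [sub_mul, mul_sub, one_mul, mul_one, hcomm]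
    have k2 : ((1 - G) * H)ᵀ * S + S * ((1 - G) * H)
        = Hᵀ * ((1 - Gᵀ) * S * (1 + G) + (1 + Gᵀ) * S * (1 - G)) * H := by
      have a1 : ((1 - G) * H)ᵀ * S = Hᵀ * ((1 - Gᵀ) * S * (1 + G)) * H := by
        rw [Matrix.transpose_mul, Matrix.transpose_sub, Matrix.transpose_one]
        calc Hᵀ * (1 - Gᵀ) * S = Hᵀ * (1 - Gᵀ) * S * ((1 + G) * H) := by rw [w1, mul_one]
          _ = _ := by simp only [mul_assoc]
      have a2 : S * ((1 - G) * H) = Hᵀ * ((1 + Gᵀ) * S * (1 - G)) * H := by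
        calc S * ((1 - G) * H) = (Hᵀ * (1 + G)ᵀ) * S * ((1 - G) * H) := by rw [k1, one_mul]
          _ = _ := by
            rw [Matrix.transpose_add, Matrix.transpose_one]; simp only [mul_assoc]
      rw [a1, a2, ← add_mul, ← mul_add]
    have k3 : (1 - Gᵀ) * S * (1 + G) + (1 + Gᵀ) * S * (1 - G) = 0 := by
      have : (1 - Gᵀ) * S * (1 + G) + (1 + Gᵀ) * S * (1 - G) = 2 • (S - Gᵀ * S * G) := by
        noncomm_ring
      rw [this, hgS, sub_self, smul_zero]
    rw [k2, k3, mul_zero, zero_mul]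
  -- the new element
  set A : Matrix ι ι ℤ_[p] := (p : ℤ_[p]) ^ k • B with hAdef
  have hA0 : rd A = 0 := by
    rw [hAdef, rd_eq_zero_iff]
    exact Dv.mono hk ⟨B, rfl⟩
  have hrdA : rd (1 + A) = 1 := by rw [rd_add, rd_one, hA0, add_zero]
  obtain ⟨v, hv⟩ := isUnit_of_rd (A := 1 + A) (by rw [hrdA]; exact isUnit_one)
  set L : Matrix ι ι ℤ_[p] := ((v⁻¹ : (Matrix ι ι ℤ_[p])ˣ) : Matrix ι ι ℤ_[p]) with hL
  have v1 : (1 + A) * L = 1 := by rw [← hv]; exact v.mul_inv
  have hrdL : rd L = 1 := by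
    have := congrArg rd v1
    rw [rd_mul, hrdA, one_mul, rd_one] at this
    exact this
  have hskew : Aᵀ * S + S * A = 0 := by
    have : Aᵀ * S + S * A = (p : ℤ_[p]) ^ k • (Bᵀ * S + S * B) := by
      rw [hAdef, smul_add, Matrix.transpose_smul, Matrix.smul_mul, Matrix.mul_smul]
    rw [this, hBS, smul_zero]
  obtain ⟨g', hg', e⟩ := cayley hS hskew v1
  -- compare modulo `p ^ (k+1)`
  have hcmp : rd (-(2 : ℤ_[p]) • (B * L)) = rd Y := by
    have hrdH : (2 : ZMod p) • rd H = 1 := by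
      have := congrArg rd w1
      rw [rd_mul, hrd2, Matrix.smul_mul, one_mul, rd_one] at this
      exact this
    have e1 : -(2 : ℤ_[p]) • (B * L) = ((2 : ℕ) : ℤ_[p]) • (Y * H * L) := by
      rw [hB, Matrix.neg_mul, smul_neg, neg_smul, neg_neg]; norm_num
    rw [e1, rd_nsmul, rd_mul, rd_mul, hrdL, mul_one]
    have : ((2 : ℕ) : ZMod p) • (rd Y * rd H) = rd Y * ((2 : ZMod p) • rd H) := by
      rw [Matrix.mul_smul]; norm_num
    rw [this, hrdH, mul_one]
  rw [rd_eq_iff] at hcmp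
  obtain ⟨Z, hZ⟩ := hcmp
  refine ⟨g', hg', Z, ?_⟩
  rw [e]
  have e2 : (1 - A) * L = 1 + (p : ℤ_[p]) ^ k • (-(2 : ℤ_[p]) • (B * L)) := by
    have : (1 - A) * L = (1 + A) * L - (2 : ℤ_[p]) • (A * L) := by
      rw [two_smul]; noncomm_ring
    rw [this, v1, hAdef, Matrix.smul_mul, neg_smul, smul_neg, smul_comm]
    abel
  rw [e2]
  have e3 : -(2 : ℤ_[p]) • (B * L) = Y + (p : ℤ_[p]) • Z := by
    rw [pow_one] at hZ
    rw [← hZ]; abel
  rw [e3]


/-! ### Logarithms of unipotent elements of orthogonal groups -/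

theorem logp_of_sq {N : Matrix ι ι (ZMod p)} (h : N * N = 0) : logp (1 + N) = N := by
  have hp : p.Prime := Fact.out
  have h1 : Finset.Ico 1 p = insert 1 (Finset.Ico 2 p) := by
    have := hp.two_le
    ext x; simp only [Finset.mem_Ico, Finset.mem_insert]; omega
  have e1 : (p.choose 1 / p : ℕ) = 1 := by
    rw [Nat.choose_one_right]; exact Nat.div_self hp.pos
  have e2 : 1 + N - 1 = N := by abel
  rw [logp, e2, h1, Finset.sum_insert (by simp), e1, Nat.cast_one, one_smul, pow_one,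
    Finset.sum_eq_zero, add_zero]
  intro i hi
  rw [Finset.mem_Ico] at hi
  obtain ⟨d, rfl⟩ := Nat.exists_eq_add_of_le hi.1
  rw [pow_add, pow_two, h, zero_mul, smul_zero]

/-- The bivector `x ∧ y` as an element of the Lie algebra of the orthogonal group of `T`. -/
noncomputable def wd (T : Matrix ι ι (ZMod p)) :
    (ι → ZMod p) →ₗ[ZMod p] (ι → ZMod p) →ₗ[ZMod p] Matrix ι ι (ZMod p) :=
  LinearMap.mk₂ (ZMod p) (fun x y => (vecMulVec x y - vecMulVec y x) * T)
    (by
      intro x x' y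
      rw [Matrix.add_vecMulVec, Matrix.vecMulVec_add, ← add_mul]
      congr 1; abel)
    (by
      intro c x y
      rw [Matrix.smul_vecMulVec, Matrix.vecMulVec_smul, ← smul_sub, Matrix.smul_mul])
    (by
      intro x y y'
      rw [Matrix.add_vecMulVec, Matrix.vecMulVec_add, ← add_mul]
      congr 1; abel)
    (by
      intro c x y
      rw [Matrix.smul_vecMulVec, Matrix.vecMulVec_smul, ← smul_sub, Matrix.smul_mul])

theorem wd_apply (T : Matrix ι ι (ZMod p)) (x y : ι → ZMod p) :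
    wd T x y = (vecMulVec x y - vecMulVec y x) * T := rfl

/-- The bilinear form of the matrix `T`. -/
noncomputable def form (T : Matrix ι ι (ZMod p)) :
    (ι → ZMod p) →ₗ[ZMod p] (ι → ZMod p) →ₗ[ZMod p] ZMod p :=
  LinearMap.mk₂ (ZMod p) (fun x y => x ⬝ᵥ (T *ᵥ y))
    (by intro x x' y; rw [add_dotProduct])
    (by intro c x y; rw [smul_dotProduct])
    (by intro x y y'; rw [Matrix.mulVec_add, dotProduct_add])
    (by intro c x y; rw [Matrix.mulVec_smul, dotProduct_smul])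

theorem form_apply (T : Matrix ι ι (ZMod p)) (x y : ι → ZMod p) :
    form T x y = x ⬝ᵥ (T *ᵥ y) := rfl

theorem form_symm {T : Matrix ι ι (ZMod p)} (hT : Tᵀ = T) (x y : ι → ZMod p) :
    form T x y = form T y x := by
  rw [form_apply, form_apply, Matrix.dotProduct_mulVec, ← Matrix.mulVec_transpose, hT,
    dotProduct_comm]

/-- Square of the bivector of a totally isotropic plane. -/
theorem wd_sq {T : Matrix ι ι (ZMod p)} (hT : Tᵀ = T) {x y : ι → ZMod p} (hx : form T x x = 0)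
    (hy : form T y y = 0) (hxy : form T x y = 0) : wd T x y * wd T x y = 0 := by
  have hyx : form T y x = 0 := by rw [form_symm hT, hxy]
  have key : ∀ a b c d : ι → ZMod p, form T b c = 0 →
      vecMulVec a b * T * (vecMulVec c d * T) = 0 := by
    intro a b c d h
    rw [form_apply] at h
    have : vecMulVec a b * T * (vecMulVec c d * T) = (vecMulVec a b * (T * vecMulVec c d)) * T := by
      simp only [mul_assoc]
    rw [this, Matrix.mul_vecMulVec, Matrix.vecMulVec_mul_vecMulVec, h, zero_smul,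
      Matrix.vecMulVec_zero, zero_mul]
  rw [wd_apply, sub_mul, sub_mul, mul_sub, mul_sub, key _ _ _ _ hyx, key _ _ _ _ hy,
    key _ _ _ _ hx, key _ _ _ _ hxy]
  simp


theorem rd_smul (c : ℤ_[p]) (A : Matrix ι ι ℤ_[p]) :
    rd (c • A) = PadicInt.toZMod c • rd A := by
  ext i j
  simp [rd]

theorem exists_lift (x : ι → ZMod p) : ∃ y : ι → ℤ_[p], ∀ i, PadicInt.toZMod (y i) = x i := by
  refine ⟨fun i => ((x i).val : ℤ_[p]), fun i => ?_⟩
  rw [map_natCast, ZMod.natCast_zmod_val]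

/-- Lifting the unipotent element `1 + wd x y` by the Cayley transform. -/
theorem exists_lift_unip (hp3 : 3 ≤ p) {S : Matrix ι ι ℤ_[p]} (hS : S.det ≠ 0) (hT : Sᵀ = S)
    {x y : ι → ZMod p} (hx : form (rd S) x x = 0) (hy : form (rd S) y y = 0)
    (hxy : form (rd S) x y = 0) :
    ∃ g ∈ SOrth S, rd (g : Matrix ι ι ℤ_[p]) = 1 + wd (rd S) x y := by
  have h2z := two_ne_zero_zmod hp3
  have hTr : (rd S)ᵀ = rd S := by rw [← rd_transpose, hT]
  obtain ⟨x', hx'⟩ := exists_lift x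
  obtain ⟨y', hy'⟩ := exists_lift y
  obtain ⟨c, hc⟩ : ∃ c : ℤ_[p], (2 : ℤ_[p]) * c = 1 := by
    have : IsUnit (2 : ℤ_[p]) := by
      apply isUnit_of_toZMod
      rw [map_ofNat]; exact h2z
    exact this.exists_right_inv
  set K : Matrix ι ι ℤ_[p] := vecMulVec x' y' - vecMulVec y' x' with hK
  have hKt : Kᵀ = -K := by
    rw [hK, Matrix.transpose_sub, Matrix.transpose_vecMulVec, Matrix.transpose_vecMulVec]
    abel
  set A : Matrix ι ι ℤ_[p] := -(c • (K * S)) with hA
  have hskew : Aᵀ * S + S * A = 0 := by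
    rw [hA, Matrix.transpose_neg, Matrix.transpose_smul, Matrix.transpose_mul, hT, hKt]
    rw [Matrix.neg_mul, Matrix.smul_mul, Matrix.mul_neg, Matrix.mul_neg, Matrix.mul_smul,
      Matrix.neg_mul, smul_neg, neg_neg, mul_assoc, add_neg_cancel]
  set N := wd (rd S) x y with hN
  have hNN : N * N = 0 := wd_sq hTr hx hy hxy
  have hrK : rd K = vecMulVec x y - vecMulVec y x := by
    ext i j
    simp [rd, hK, vecMulVec_apply, hx', hy']
  set c' : ZMod p := PadicInt.toZMod c with hc'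
  have hcc : 2 * c' = 1 := by
    have := congrArg (PadicInt.toZMod (p := p)) hc
    rw [map_mul, map_ofNat, map_one] at this
    exact this
  have hrA : rd A = -(c' • N) := by
    have e1 : rd (c • (K * S)) = c' • rd (K * S) := rd_smul _ _
    have e2 : rd (-(c • (K * S))) = -rd (c • (K * S)) := map_neg _ _
    rw [hA, e2, e1, rd_mul, hrK, hN, wd_apply]
  have e1 : (1 - c' • N) * (1 + c' • N) = 1 := by
    have : (c' • N) * (c' • N) = 0 := by
      rw [Matrix.smul_mul, Matrix.mul_smul, hNN, smul_zero, smul_zero]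
    rw [sub_mul, one_mul, mul_add, mul_one, this]
    abel
  have e1' : (1 + c' • N) * (1 - c' • N) = 1 := by
    have : (c' • N) * (c' • N) = 0 := by
      rw [Matrix.smul_mul, Matrix.mul_smul, hNN, smul_zero, smul_zero]
    rw [add_mul, one_mul, mul_sub, mul_one, this]
    abel
  have hr1 : rd (1 + A) = 1 - c' • N := by
    rw [rd_add, rd_one, hrA]; abel
  obtain ⟨v, hv⟩ := isUnit_of_rd (A := 1 + A) (by
    rw [hr1]; exact ⟨⟨_, _, e1, e1'⟩, rfl⟩)
  set L : Matrix ι ι ℤ_[p] := ((v⁻¹ : (Matrix ι ι ℤ_[p])ˣ) : Matrix ι ι ℤ_[p]) with hL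
  have v1 : (1 + A) * L = 1 := by rw [← hv]; exact v.mul_inv
  have hrL : rd L = 1 + c' • N := by
    have := congrArg rd v1
    rw [rd_mul, hr1, rd_one] at this
    have h3 := congrArg ((1 + c' • N) * ·) this
    simp only [← mul_assoc, e1', one_mul, mul_one] at h3
    exact h3
  obtain ⟨g, hg, e⟩ := cayley hS hskew v1
  refine ⟨g, hg, ?_⟩
  have hr2 : rd (1 - A) = 1 + c' • N := by
    rw [rd_sub, rd_one, hrA]; abel
  rw [e, rd_mul, hrL, hr2]
  have : (c' • N) * (c' • N) = 0 := by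
    rw [Matrix.smul_mul, Matrix.mul_smul, hNN, smul_zero, smul_zero]
  rw [add_mul, one_mul, mul_add, mul_one, this, add_zero, add_assoc, ← add_smul, ← two_mul, hcc,
    one_smul]

/-- **The Lie algebra of `SO(S)` modulo `p` is generated by logarithms of unipotent elements**
when `p ≥ 5` and the reduction of `S` is non-degenerate and contains two hyperbolic planes. -/
theorem lieFromUnipotents_SOrth (hp5 : 5 ≤ p) {S : Matrix ι ι ℤ_[p]} (hS : IsUnit S.det)
    (hT : Sᵀ = S) {e1 f1 e2 f2 : ι → ZMod p} (hpl : TwoPlanes (form (rd S)) e1 f1 e2 f2) :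
    LieFromUnipotents (SOrth S) := by
  have hS0 : S.det ≠ 0 := hS.ne_zero
  have h2z := two_ne_zero_zmod (p := p) (by omega)
  have hTr : (rd S)ᵀ = rd S := by rw [← rd_transpose, hT]
  set P : Submodule (ZMod p) (Matrix ι ι (ZMod p)) :=
    AddSubgroup.toZModSubmodule p (AddSubgroup.closure (logs (SOrth S))) with hPdef
  have hPmem : ∀ X, X ∈ P ↔ X ∈ AddSubgroup.closure (logs (SOrth S)) := fun X => Iff.rfl
  have hiso : ∀ x y, form (rd S) x x = 0 → form (rd S) y y = 0 → form (rd S) x y = 0 →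
      wd (rd S) x y ∈ P := by
    intro x y hx hy hxy
    obtain ⟨g, hg, e⟩ := exists_lift_unip (by omega) hS0 hT hx hy hxy
    have hNN := wd_sq hTr hx hy hxy
    rw [hPmem]
    refine AddSubgroup.subset_closure ⟨g, hg, ?_, ?_⟩
    · rw [e, add_sub_cancel_left]
      have h2 : 2 ≤ p / 2 := by omega
      obtain ⟨d, hd⟩ := Nat.exists_eq_add_of_le h2
      rw [hd, pow_add, pow_two, hNN, zero_mul]
    · rw [e, logp_of_sq hNN]
  have hall : ∀ x y, wd (rd S) x y ∈ P := fun x y =>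
    wd_mem h2z (form_symm hTr) (fun x => by rw [wd_apply, sub_self, zero_mul]) P hiso hpl x y
  rintro X ⟨g, hg, Y, hY, rfl⟩
  rw [← hPmem]
  -- `X` is skew
  have hgS := hg.1
  have hsk : (rd Y)ᵀ * rd S + rd S * rd Y = 0 := by
    have h1 : Yᵀ * S + S * Y + (p : ℤ_[p]) • (Yᵀ * S * Y) = 0 := by
      apply psmul_cancel (k := 1)
      rw [pow_one]
      rw [hY, Matrix.transpose_add, Matrix.transpose_smul, Matrix.transpose_one] at hgS
      have h2 : (1 + (p : ℤ_[p]) • Yᵀ) * S * (1 + (p : ℤ_[p]) • Y)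
          = S + (p : ℤ_[p]) • (Yᵀ * S + S * Y + (p : ℤ_[p]) • (Yᵀ * S * Y)) := by
        simp only [add_mul, mul_add, one_mul, mul_one, Matrix.smul_mul, Matrix.mul_smul, smul_add]
        abel
      rw [h2] at hgS
      exact add_eq_left.1 hgS
    have h3 := congrArg rd h1
    rw [rd_add, rd_psmul, add_zero, rd_add, rd_mul, rd_mul, rd_transpose] at h3
    rw [h3]; exact map_zero _
  have hSu : IsUnit (rd S) := by
    rw [Matrix.isUnit_iff_isUnit_det]
    have : (rd S).det = PadicInt.toZMod S.det := by rw [rd, ← RingHom.map_det]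
    rw [this]; exact hS.map _
  obtain ⟨w, hw⟩ := hSu
  set T : Matrix ι ι (ZMod p) := ((w⁻¹ : (Matrix ι ι (ZMod p))ˣ) : Matrix ι ι (ZMod p)) with hTd
  have w1 : rd S * T = 1 := by rw [← hw]; exact w.mul_inv
  have w2 : T * rd S = 1 := by rw [← hw]; exact w.inv_mul
  have hTt : Tᵀ = T := by
    have h1 : Tᵀ * rd S = 1 := by
      have := congrArg Matrix.transpose w1
      rw [Matrix.transpose_mul, hTr, Matrix.transpose_one] at this
      exact this
    calc Tᵀ = Tᵀ * (rd S * T) := by rw [w1, mul_one]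
      _ = T := by rw [← mul_assoc, h1, one_mul]
  set K : Matrix ι ι (ZMod p) := rd Y * T with hK
  have hKt : Kᵀ = -K := by
    rw [hK, Matrix.transpose_mul, hTt]
    have h1 : rd S * rd Y = -((rd Y)ᵀ * rd S) := by
      rw [add_comm] at hsk
      exact eq_neg_of_add_eq_zero_left hsk
    have h2 : T * (rd S * rd Y) * T = -(T * ((rd Y)ᵀ * rd S) * T) := by
      rw [h1, Matrix.mul_neg, Matrix.neg_mul]
    rw [← mul_assoc T, w2, one_mul] at h2
    have h3 : T * ((rd Y)ᵀ * rd S) * T = T * (rd Y)ᵀ := by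
      rw [mul_assoc, mul_assoc, w1, mul_one]
    rw [h3] at h2
    rw [h2, neg_neg]
  have hYK : rd Y = K * rd S := by rw [hK, mul_assoc, w2, mul_one]
  have hKij : ∀ i j, K j i = - K i j := fun i j => by
    have := congrFun (congrFun hKt i) j
    rw [Matrix.transpose_apply, Matrix.neg_apply] at this
    exact this
  have hsum : K = ∑ i, ∑ j, ((2 : ZMod p)⁻¹ * K i j) •
      (vecMulVec (Pi.single i 1) (Pi.single j 1) - vecMulVec (Pi.single j 1) (Pi.single i 1)) := by
    ext a b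
    have e1 : ∀ i j : ι, (((2 : ZMod p)⁻¹ * K i j) •
        (vecMulVec (Pi.single i (1 : ZMod p)) (Pi.single j (1 : ZMod p)) -
          vecMulVec (Pi.single j 1) (Pi.single i 1)) : Matrix ι ι (ZMod p)) a b
        = (if a = i then (if b = j then (2 : ZMod p)⁻¹ * K i j else 0) else 0)
          - (if a = j then (if b = i then (2 : ZMod p)⁻¹ * K i j else 0) else 0) := by
      intro i j
      rw [Matrix.smul_apply, Matrix.sub_apply, vecMulVec_apply, vecMulVec_apply, smul_eq_mul,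
        Pi.single_apply, Pi.single_apply, Pi.single_apply, Pi.single_apply]
      split_ifs <;> ring
    rw [Matrix.sum_apply]
    simp only [Matrix.sum_apply, e1, Finset.sum_sub_distrib]
    rw [Finset.sum_comm (f := fun i j => if a = j then (if b = i then (2 : ZMod p)⁻¹ * K i j
      else 0) else 0)]
    have s1 : ∑ i, ∑ j, (if a = i then (if b = j then (2 : ZMod p)⁻¹ * K i j else 0) else 0)
        = (2 : ZMod p)⁻¹ * K a b := by
      rw [Finset.sum_eq_single a, Finset.sum_eq_single b]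
      · simp
      · intro j _ hj; simp [Ne.symm hj]
      · simp
      · intro i _ hi; simp [Ne.symm hi]
      · simp
    have s2 : ∑ j, ∑ i, (if a = j then (if b = i then (2 : ZMod p)⁻¹ * K i j else 0) else 0)
        = (2 : ZMod p)⁻¹ * K b a := by
      rw [Finset.sum_eq_single a, Finset.sum_eq_single b]
      · simp
      · intro j _ hj; simp [Ne.symm hj]
      · simp
      · intro i _ hi; simp [Ne.symm hi]
      · simp
    rw [s1, s2]
    rw [hKij a b]
    have : (2 : ZMod p)⁻¹ * K a b - (2 : ZMod p)⁻¹ * -K a b = (2 : ZMod p)⁻¹ * 2 * K a b := by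
      ring
    rw [this, inv_mul_cancel₀ h2z, one_mul]
  rw [hYK, hsum, Finset.sum_mul]
  refine P.sum_mem fun i _ => ?_
  rw [Finset.sum_mul]
  refine P.sum_mem fun j _ => ?_
  rw [Matrix.smul_mul]
  exact P.smul_mem _ (hall _ _)

end Pool.Agent.X279.IM
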