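import Pool.Agent.X279.IM.Span

/-!
# Non-degenerate symmetric forms of rank at least five over `F_p` contain two hyperbolic planes
-/

namespace Pool.Agent.X279.IM

open MvPolynomial

variable {p : ℕ} [Fact p.Prime] {V : Type*} [AddCommGroup V] [Module (ZMod p) V]

/-- Chevalley-Warning: three linearly independent vectors have an isotropic combination. -/
theorem exists_isotropic {q : V →ₗ[ZMod p] V →ₗ[ZMod p] ZMod p} (hq : ∀ x y, q x y = q y x)
    {v : Fin 3 → V}
    (hv : LinearIndependent (ZMod p) v) (W : Submodule (ZMod p) V) (hW : ∀ i, v i ∈ W) :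
    ∃ x ∈ W, x ≠ 0 ∧ q x x = 0 := by
  classical
  set f : MvPolynomial (Fin 3) (ZMod p) :=
    ∑ i, ∑ j, C (q (v i) (v j)) * (X i * X j) with hf
  have hdeg : f.totalDegree < Fintype.card (Fin 3) := by
    rw [Fintype.card_fin]
    have : f.totalDegree ≤ 2 := by
      rw [hf]
      refine (totalDegree_finsetSum_le fun i _ => ?_)
      refine (totalDegree_finsetSum_le fun j _ => ?_)
      refine (totalDegree_mul _ _).trans ?_
      rw [totalDegree_C, zero_add]
      refine (totalDegree_mul _ _).trans ?_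
      rw [totalDegree_X, totalDegree_X]
    omega
  have hdvd := char_dvd_card_solutions p hdeg
  have heval : ∀ c : Fin 3 → ZMod p, eval c f = q (∑ i, c i • v i) (∑ i, c i • v i) := by
    intro c
    rw [hf]
    simp only [map_sum, map_mul, eval_C, eval_X, LinearMap.sum_apply, map_smul,
      LinearMap.smul_apply, smul_eq_mul]
    refine Finset.sum_congr rfl fun i _ => ?_
    rw [Finset.mul_sum]
    refine Finset.sum_congr rfl fun j _ => ?_
    rw [hq (v j) (v i)]
    ring
  have hex : ∃ c : Fin 3 → ZMod p, c ≠ 0 ∧ eval c f = 0 := by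
    by_contra hno
    push Not at hno
    have : Fintype.card { x : Fin 3 → ZMod p // eval x f = 0 } = 1 := by
      rw [Fintype.card_eq_one_iff]
      refine ⟨⟨0, by rw [heval]; simp⟩, fun y => ?_⟩
      by_contra hy
      exact hno y.1 (fun h => hy (Subtype.ext h)) y.2
    rw [this] at hdvd
    exact (Fact.out : p.Prime).one_lt.ne' (Nat.dvd_one.1 hdvd)
  obtain ⟨c, hc, h0⟩ := hex
  refine ⟨∑ i, c i • v i, W.sum_mem fun i _ => W.smul_mem _ (hW i), ?_, ?_⟩
  · intro h
    rw [Fintype.linearIndependent_iff] at hv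
    exact hc (funext fun i => hv c h i)
  · rw [← heval, h0]

theorem exists_twoPlanes [FiniteDimensional (ZMod p) V] (h2 : (2 : ZMod p) ≠ 0)
    (hdim : 5 ≤ Module.finrank (ZMod p) V)
    {q : V →ₗ[ZMod p] V →ₗ[ZMod p] ZMod p} (hq : ∀ x y, q x y = q y x)
    (hnd : ∀ x, x ≠ 0 → ∃ y, q x y ≠ 0) : ∃ e1 f1 e2 f2, TwoPlanes q e1 f1 e2 f2 := by
  have half : ∀ t : ZMod p, t - 2 * (t * (2 : ZMod p)⁻¹) = 0 := by
    intro t
    rw [mul_comm t, ← mul_assoc, mul_inv_cancel₀ h2, one_mul, sub_self]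
  -- completing an isotropic vector to a hyperbolic pair
  have pair : ∀ e, q e e = 0 → ∀ g, q e g ≠ 0 → ∃ a b : ZMod p, q e (a • g - b • e) = 1 ∧
      q (a • g - b • e) (a • g - b • e) = 0 := by
    intro e he g hg
    refine ⟨(q e g)⁻¹, (q e g)⁻¹ * (q e g)⁻¹ * q g g * (2 : ZMod p)⁻¹, ?_, ?_⟩
    · rw [map_sub, map_smul, map_smul, smul_eq_mul, smul_eq_mul, he, mul_zero, sub_zero,
        inv_mul_cancel₀ hg]
    · have hge := hq g e
      simp only [map_sub, map_smul, LinearMap.sub_apply, LinearMap.smul_apply, smul_eq_mul, he,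
        hge]
      have h1 := half ((q e g)⁻¹ * (q e g)⁻¹ * q g g)
      have h3 : (q e g)⁻¹ * q e g = 1 := inv_mul_cancel₀ hg
      linear_combination h1 - 2 * ((q e g)⁻¹ * (q e g)⁻¹ * q g g * (2 : ZMod p)⁻¹) * h3
  obtain ⟨v, hv⟩ := exists_linearIndependent_of_le_finrank (R := ZMod p) (M := V) (n := 3)
    (by omega)
  obtain ⟨e1, -, he1, h11⟩ := exists_isotropic hq hv ⊤ (fun _ => Submodule.mem_top)
  obtain ⟨g, hg⟩ := hnd e1 he1
  obtain ⟨a, b, hf1, hf1'⟩ := pair e1 h11 g hg
  set f1 := a • g - b • e1 with hf1d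
  -- the orthogonal complement
  set W : Submodule (ZMod p) V := LinearMap.ker ((q e1).prod (q f1)) with hW
  have hWm : ∀ w, w ∈ W ↔ q e1 w = 0 ∧ q f1 w = 0 := by
    intro w
    rw [hW, LinearMap.mem_ker]
    exact Prod.ext_iff
  have hWdim : 3 ≤ Module.finrank (ZMod p) W := by
    have h1 := LinearMap.finrank_range_add_finrank_ker ((q e1).prod (q f1))
    rw [← hW] at h1
    have h3 : Module.finrank (ZMod p) (LinearMap.range ((q e1).prod (q f1))) ≤ 2 := by
      refine (Submodule.finrank_le _).trans ?_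
      rw [Module.finrank_prod, Module.finrank_self]
    omega
  obtain ⟨u, hu⟩ := exists_linearIndependent_of_le_finrank hWdim
  have hu' : LinearIndependent (ZMod p) (fun i => ((u i : W) : V)) :=
    hu.map' W.subtype (Submodule.ker_subtype W)
  obtain ⟨e2, he2W, he2, h22⟩ := exists_isotropic hq hu' W (fun i => (u i).2)
  rw [hWm] at he2W
  obtain ⟨g', hg'⟩ := hnd e2 he2
  have hfe1 : q f1 e1 = 1 := by rw [hq]; exact hf1
  set g2 := g' - q f1 g' • e1 - q e1 g' • f1 with hg2
  have hg2e : q e1 g2 = 0 := by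
    rw [hg2, map_sub, map_sub, map_smul, map_smul, h11, hf1]; simp
  have hg2f : q f1 g2 = 0 := by
    rw [hg2, map_sub, map_sub, map_smul, map_smul, hfe1, hf1']; simp
  have he2e : q e2 e1 = 0 := by rw [hq]; exact he2W.1
  have he2f : q e2 f1 = 0 := by rw [hq]; exact he2W.2
  have hg2' : q e2 g2 ≠ 0 := by
    rw [hg2, map_sub, map_sub, map_smul, map_smul, he2e, he2f]
    simpa using hg'
  obtain ⟨c, d, hf2, hf2'⟩ := pair e2 h22 g2 hg2'
  refine ⟨e1, f1, e2, c • g2 - d • e2, h11, hf1', hf1, h22, hf2', hf2, he2W.1, ?_, he2W.2, ?_⟩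
  · rw [map_sub, map_smul, map_smul, hg2e, he2W.1]; simp
  · rw [map_sub, map_smul, map_smul, hg2f, he2W.2]; simp

end Pool.Agent.X279.IM
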