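import Pool.Agent.X279.IM.Irred
import Pool.Agent.X279.IM.Orth
import Pool.Agent.X279.IM.Planes

/-!
# The index of the `l`-adic images and the index modulo `l`
-/

namespace Pool.Agent.X279.IM

set_option linter.unusedSectionVars false

open Matrix

variable {ι : Type} [Fintype ι] [DecidableEq ι]

section Local

variable {p : ℕ} [Fact p.Prime]

theorem relIndex_red_dvd (G Γ : Subgroup (GL ι ℤ_[p])) :
    (Γ.map red).relIndex (G.map red) ∣ Γ.relIndex G := by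
  rw [← Subgroup.relIndex_comap, Subgroup.comap_map_eq]
  exact Subgroup.relIndex_dvd_of_le_left G le_sup_left

theorem good_SOrth (hp5 : 5 ≤ p) (hι : 5 ≤ Fintype.card ι) {S : Matrix ι ι ℤ_[p]}
    (hS : IsUnit S.det) (hT : Sᵀ = S) : Saturated (SOrth S) ∧ LieFromUnipotents (SOrth S) := by
  have hTr : (rd S)ᵀ = rd S := by rw [← rd_transpose, hT]
  have hSu : IsUnit (rd S) := by
    rw [Matrix.isUnit_iff_isUnit_det]
    have : (rd S).det = PadicInt.toZMod S.det := by rw [rd, ← RingHom.map_det]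
    rw [this]; exact hS.map _
  obtain ⟨e1, f1, e2, f2, hpl⟩ := exists_twoPlanes (q := form (rd S))
    (two_ne_zero_zmod (by omega)) (by rw [Module.finrank_fintype_fun_eq_card]; exact hι)
    (form_symm hTr) (by
      intro x hx
      by_contra hno
      push Not at hno
      apply hx
      obtain ⟨w, hw⟩ := hSu
      have h1 : x ᵥ* rd S = 0 := by
        apply dotProduct_eq_zero
        intro y
        have := hno y
        rw [form_apply, Matrix.dotProduct_mulVec] at this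
        exact this
      have h2 : x ᵥ* (rd S * ((w⁻¹ : (Matrix ι ι (ZMod p))ˣ) : Matrix ι ι (ZMod p))) = 0 := by
        rw [← Matrix.vecMul_vecMul, h1, Matrix.zero_vecMul]
      rw [← hw, Units.mul_inv, Matrix.vecMul_one] at h2
      exact h2)
  exact ⟨saturated_SOrth (by omega) hS.ne_zero, lieFromUnipotents_SOrth hp5 hS hT hpl⟩

end Local

/-- One bound for the index of `Γ_l` in `G_l` for all `l` (the conclusion of Q1). -/
def BoundedIndex (G Γ : ∀ (ℓ : ℕ) [Fact ℓ.Prime], Subgroup (GL ι ℤ_[ℓ])) : Prop :=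
  ∃ C : ℕ, ∀ (ℓ : ℕ) [Fact ℓ.Prime],
    Γ ℓ ≤ G ℓ ∧ (Γ ℓ).relIndex (G ℓ) ≠ 0 ∧ (Γ ℓ).relIndex (G ℓ) ≤ C

/-- `Γ_l ≤ G_l` for all `l`, the index of the reductions modulo `l` is bounded by some `C`, and
the index of `Γ_l` in `G_l` is finite for the finitely many `l ≤ max B C`. -/
def BoundedIndexMod (B : ℕ) (G Γ : ∀ (ℓ : ℕ) [Fact ℓ.Prime], Subgroup (GL ι ℤ_[ℓ])) : Prop :=
  (∀ (ℓ : ℕ) [Fact ℓ.Prime], Γ ℓ ≤ G ℓ) ∧ ∃ C : ℕ,
    (∀ (ℓ : ℕ) [Fact ℓ.Prime], ((Γ ℓ).map red).relIndex ((G ℓ).map red) ≤ C) ∧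
    (∀ (ℓ : ℕ) [Fact ℓ.Prime], ℓ ≤ max B C → (Γ ℓ).relIndex (G ℓ) ≠ 0)

theorem bounded_iff {G Γ : ∀ (ℓ : ℕ) [Fact ℓ.Prime], Subgroup (GL ι ℤ_[ℓ])} {B : ℕ}
    (hB : 2 ≤ B)
    (hcl : ∀ (ℓ : ℕ) [Fact ℓ.Prime], PadicClosed (Γ ℓ))
    (hgood : ∀ (ℓ : ℕ) [Fact ℓ.Prime], B < ℓ → Saturated (G ℓ) ∧ LieFromUnipotents (G ℓ)) :
    BoundedIndex G Γ ↔ BoundedIndexMod B G Γ := by
  classical
  constructor
  · rintro ⟨C, hC⟩
    refine ⟨fun ℓ _ => (hC ℓ).1, C, fun ℓ _ => ?_, fun ℓ _ _ => (hC ℓ).2.1⟩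
    exact (Nat.le_of_dvd (Nat.pos_of_ne_zero (hC ℓ).2.1) (relIndex_red_dvd _ _)).trans
      (hC ℓ).2.2
  · rintro ⟨hle, C, hC, hfin⟩
    set idx : ℕ → ℕ := fun ℓ => if h : ℓ.Prime then
      (haveI : Fact ℓ.Prime := ⟨h⟩; (Γ ℓ).relIndex (G ℓ)) else 0 with hidx
    refine ⟨C + ∑ ℓ ∈ Finset.range (max B C + 1), idx ℓ, fun ℓ hℓ => ?_⟩
    have hi : idx ℓ = (Γ ℓ).relIndex (G ℓ) := by
      rw [hidx]; simp only; rw [dif_pos hℓ.out]
    rcases le_or_gt ℓ (max B C) with h | h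
    · refine ⟨hle ℓ, hfin ℓ h, ?_⟩
      rw [← hi]
      have : idx ℓ ≤ ∑ ℓ ∈ Finset.range (max B C + 1), idx ℓ :=
        Finset.single_le_sum (fun _ _ => Nat.zero_le _) (Finset.mem_range.2 (by omega))
      omega
    · have hBℓ : B < ℓ := lt_of_le_of_lt (le_max_left _ _) h
      have hCℓ : C < ℓ := lt_of_le_of_lt (le_max_right _ _) h
      obtain ⟨hs, hl⟩ := hgood ℓ hBℓ
      have hker := kernel_le_of_index (by omega) hs hl (hle ℓ) (hcl ℓ)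
        (lt_of_le_of_lt (hC ℓ) hCℓ)
      have he := relIndex_eq (hle ℓ) hker
      refine ⟨hle ℓ, ?_, ?_⟩
      · rw [← he]; exact relIndex_red_ne_zero _ _
      · rw [← he]; exact (hC ℓ).trans (Nat.le_add_right _ _)

/-- The special orthogonal groups over all `Z_l` of an integral symmetric matrix. -/
noncomputable def SOInt (S : Matrix ι ι ℤ) : ∀ (ℓ : ℕ) [Fact ℓ.Prime], Subgroup (GL ι ℤ_[ℓ]) :=
  fun ℓ _ => SOrth (S.map (Int.cast : ℤ → ℤ_[ℓ]))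

theorem bounded_iff_SO {S : Matrix ι ι ℤ} (hι : 5 ≤ Fintype.card ι) (hS : S.det ≠ 0)
    (hT : Sᵀ = S) {Γ : ∀ (ℓ : ℕ) [Fact ℓ.Prime], Subgroup (GL ι ℤ_[ℓ])}
    (hcl : ∀ (ℓ : ℕ) [Fact ℓ.Prime], PadicClosed (Γ ℓ)) :
    BoundedIndex (SOInt S) Γ ↔ BoundedIndexMod (max 4 S.det.natAbs) (SOInt S) Γ := by
  refine bounded_iff (le_trans (by norm_num) (le_max_left _ _)) hcl fun ℓ hℓ h => ?_
  have h4 : 4 < ℓ := lt_of_le_of_lt (le_max_left _ _) h
  have hd : S.det.natAbs < ℓ := lt_of_le_of_lt (le_max_right _ _) h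
  refine good_SOrth (by omega) hι ?_ ?_
  · have e : (S.map (Int.cast : ℤ → ℤ_[ℓ])).det = ((S.det : ℤ) : ℤ_[ℓ]) := by
      have := RingHom.map_det (Int.castRingHom ℤ_[ℓ]) S
      rw [eq_intCast] at this
      rw [this]; rfl
    rw [e]
    apply isUnit_of_toZMod
    rw [map_intCast, Ne, ZMod.intCast_zmod_eq_zero_iff_dvd]
    intro hdv
    have h1 : ℓ ∣ S.det.natAbs := Int.natCast_dvd.1 hdv
    exact absurd (Nat.le_of_dvd (Int.natAbs_pos.2 hS) h1) (by omega)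
  · rw [← Matrix.transpose_map, hT]

end Pool.Agent.X279.IM
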