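import Pool.Agent.X279.IM.Irred
import Pool.Agent.X279.IM.Orth

/-!
# Closed groups of similitudes
-/

namespace Pool.Agent.X279.IM

set_option linter.unusedSectionVars false

open Matrix

variable {ι : Type} [Fintype ι] [DecidableEq ι] {p : ℕ} [Fact p.Prime]

/-- The Lie algebra of the isometry group of `T` over `F_p`. -/
def IsoLie (T : Matrix ι ι (ZMod p)) : Set (Matrix ι ι (ZMod p)) := {X | Xᵀ * T + T * X = 0}

theorem exists_lift_mat (X : Matrix ι ι (ZMod p)) : ∃ L : Matrix ι ι ℤ_[p], rd L = X := by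
  refine ⟨Matrix.of fun i j => ((X i j).val : ℤ_[p]), ?_⟩
  ext i j
  simp [rd]

theorem isoLie_of_mem {S : Matrix ι ι ℤ_[p]} {X : Matrix ι ι (ZMod p)}
    (hX : X ∈ lieMod (SOrth S)) : X ∈ IsoLie (rd S) := by
  obtain ⟨g, hg, Y, hY, rfl⟩ := hX
  have hgS := hg.1
  have h1 : Yᵀ * S + S * Y + (p : ℤ_[p]) • (Yᵀ * S * Y) = 0 := by
    apply psmul_cancel (k := 1)
    rw [pow_one]
    rw [hY, Matrix.transpose_add, Matrix.transpose_smul, Matrix.transpose_one] at hgS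
    have h2 : (1 + (p : ℤ_[p]) • Yᵀ) * S * (1 + (p : ℤ_[p]) • Y)
        = S + (p : ℤ_[p]) • (Yᵀ * S + S * Y + (p : ℤ_[p]) • (Yᵀ * S * Y)) := by
      simp only [add_mul, mul_add, one_mul, mul_one, Matrix.smul_mul, Matrix.mul_smul, smul_add]
      abel
    rw [h2] at hgS
    exact add_eq_left.1 hgS
  have h3 := congrArg rd h1
  rw [rd_add, rd_psmul, add_zero, rd_add, rd_mul, rd_mul, rd_transpose] at h3
  change (rd Y)ᵀ * rd S + rd S * rd Y = 0
  rw [h3]; exact map_zero _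

theorem mem_of_isoLie (hp3 : 3 ≤ p) {S : Matrix ι ι ℤ_[p]} (hS : IsUnit S.det) {ε : ℤ_[p]}
    (hε : ε * ε = 1) (hT : Sᵀ = ε • S) {X : Matrix ι ι (ZMod p)} (hX : X ∈ IsoLie (rd S)) :
    X ∈ lieMod (SOrth S) := by
  have h2z := two_ne_zero_zmod hp3
  obtain ⟨c, hc⟩ : ∃ c : ℤ_[p], (2 : ℤ_[p]) * c = 1 := by
    have : IsUnit (2 : ℤ_[p]) := by
      apply isUnit_of_toZMod
      rw [map_ofNat]; exact h2z
    exact this.exists_right_inv
  set c' : ZMod p := PadicInt.toZMod c with hc'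
  have hcc : 2 * c' = 1 := by
    have := congrArg (PadicInt.toZMod (p := p)) hc
    rw [map_mul, map_ofNat, map_one] at this
    exact this
  set e' : ZMod p := PadicInt.toZMod ε with he'
  have hee : e' * e' = 1 := by
    have := congrArg (PadicInt.toZMod (p := p)) hε
    rw [map_mul, map_one] at this
    exact this
  have hTr : (rd S)ᵀ = e' • rd S := by rw [← rd_transpose, hT, rd_smul]
  -- lift `-(1/2) S X`
  obtain ⟨L, hL⟩ := exists_lift_mat (-(c' • (rd S * X)))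
  set C : Matrix ι ι ℤ_[p] := c • (L - ε • Lᵀ) with hC
  have hCt : ε • Cᵀ + C = 0 := by
    rw [hC, Matrix.transpose_smul, Matrix.transpose_sub, Matrix.transpose_smul,
      Matrix.transpose_transpose, smul_comm ε c, ← smul_add, smul_sub, smul_smul, hε, one_smul]
    have : ε • Lᵀ - L + (L - ε • Lᵀ) = 0 := by abel
    rw [this, smul_zero]
  obtain ⟨T, hT1, hT2⟩ : ∃ T : Matrix ι ι ℤ_[p], S * T = 1 ∧ T * S = 1 :=
    ⟨S⁻¹, Matrix.mul_nonsing_inv S hS, Matrix.nonsing_inv_mul S hS⟩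
  have hTt : Tᵀ * S = ε • (1 : Matrix ι ι ℤ_[p]) := by
    have h1 : Tᵀ * Sᵀ = 1 := by rw [← Matrix.transpose_mul, hT1, Matrix.transpose_one]
    rw [hT, Matrix.mul_smul] at h1
    have := congrArg (ε • ·) h1
    simp only [smul_smul, hε, one_smul] at this
    exact this
  set A : Matrix ι ι ℤ_[p] := T * C with hA
  have hskew : Aᵀ * S + S * A = 0 := by
    rw [hA, Matrix.transpose_mul, mul_assoc, hTt, ← mul_assoc S, hT1, one_mul, Matrix.mul_smul,
      mul_one]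
    exact hCt
  have hSX : rd S * X = -(Xᵀ * rd S) := by
    have h := hX
    change Xᵀ * rd S + rd S * X = 0 at h
    rw [add_comm] at h
    exact eq_neg_of_add_eq_zero_left h
  have hrC : rd C = -(c' • (rd S * X)) := by
    have e1 : rd (L - ε • Lᵀ) = rd L - e' • (rd L)ᵀ := by rw [rd_sub, rd_smul, rd_transpose]
    have e2 : (rd S * X)ᵀ = -(e' • (rd S * X)) := by
      rw [Matrix.transpose_mul, hTr, Matrix.mul_smul, hSX, smul_neg, neg_neg]
    have e3 : e' • (rd L)ᵀ = -rd L := by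
      rw [hL, Matrix.transpose_neg, Matrix.transpose_smul, e2]
      simp only [smul_neg, neg_neg]
      rw [smul_comm e' c', smul_smul e' e', hee, one_smul]
    rw [hC, rd_smul, e1, e3, sub_neg_eq_add, ← two_smul (ZMod p), smul_smul, mul_comm c' 2, hcc,
      one_smul, hL]
  have hrA : rd S * rd A = -(c' • (rd S * X)) := by
    rw [← rd_mul, hA, ← mul_assoc, hT1, one_mul, hrC]
  have hrA' : rd A = -(c' • X) := by
    have h1 : rd T * rd S = 1 := by rw [← rd_mul, hT2, rd_one]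
    have := congrArg (rd T * ·) hrA
    simp only [← mul_assoc, h1, one_mul, Matrix.mul_neg, Matrix.mul_smul] at this
    exact this
  -- the Cayley transform of `p A`
  set A' : Matrix ι ι ℤ_[p] := (p : ℤ_[p]) • A with hA'
  have hskew' : A'ᵀ * S + S * A' = 0 := by
    rw [hA', Matrix.transpose_smul, Matrix.smul_mul, Matrix.mul_smul, ← smul_add, hskew, smul_zero]
  have hr1 : rd (1 + A') = 1 := by rw [rd_add, rd_one, hA', rd_psmul, add_zero]
  obtain ⟨v, hv⟩ := isUnit_of_rd (A := 1 + A') (by rw [hr1]; exact isUnit_one)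
  set H : Matrix ι ι ℤ_[p] := ((v⁻¹ : (Matrix ι ι ℤ_[p])ˣ) : Matrix ι ι ℤ_[p]) with hH
  have v1 : (1 + A') * H = 1 := by rw [← hv]; exact v.mul_inv
  have hrH : rd H = 1 := by
    have := congrArg rd v1
    rw [rd_mul, hr1, one_mul, rd_one] at this
    exact this
  obtain ⟨g, hg, e⟩ := cayley hS.ne_zero hskew' v1
  refine ⟨g, hg, -((2 : ℤ_[p]) • (A * H)), ?_, ?_⟩
  · rw [e]
    have : (1 - A') * H = (1 + A') * H - (2 : ℤ_[p]) • (A' * H) := by
      rw [two_smul]; noncomm_ring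
    rw [this, v1, hA', Matrix.smul_mul, smul_neg, smul_comm (p : ℤ_[p]) (2 : ℤ_[p]),
      sub_eq_add_neg]
  · have e1 : rd (-((2 : ℤ_[p]) • (A * H))) = -rd ((2 : ℤ_[p]) • (A * H)) := map_neg _ _
    rw [e1, rd_smul, rd_mul, hrH, mul_one, hrA', map_ofNat, smul_neg, neg_neg, smul_smul, hcc,
      one_smul]

theorem lieMod_SOrth (hp3 : 3 ≤ p) {S : Matrix ι ι ℤ_[p]} (hS : IsUnit S.det) {ε : ℤ_[p]}
    (hε : ε * ε = 1) (hT : Sᵀ = ε • S) (X : Matrix ι ι (ZMod p)) :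
    X ∈ lieMod (SOrth S) ↔ X ∈ IsoLie (rd S) :=
  ⟨isoLie_of_mem, mem_of_isoLie hp3 hS hε hT⟩


/-- `γ` is a similitude of the bilinear form `S`. -/
def IsSimilitude (S : Matrix ι ι ℤ_[p]) (γ : GL ι ℤ_[p]) : Prop :=
  ∃ c : ℤ_[p], (γ : Matrix ι ι ℤ_[p])ᵀ * S * (γ : Matrix ι ι ℤ_[p]) = c • S

theorem conj_mem_SOrth {S : Matrix ι ι ℤ_[p]} {γ g : GL ι ℤ_[p]} (hγ : IsSimilitude S γ)
    (hg : g ∈ SOrth S) : γ * g * γ⁻¹ ∈ SOrth S := by
  obtain ⟨c, hc⟩ := hγ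
  obtain ⟨h1, h2⟩ := hg
  have e1 : (γ : Matrix ι ι ℤ_[p]) * ((γ⁻¹ : GL ι ℤ_[p]) : Matrix ι ι ℤ_[p]) = 1 := by
    rw [← Units.val_mul, mul_inv_cancel, Units.val_one]
  set G : Matrix ι ι ℤ_[p] := (γ : Matrix ι ι ℤ_[p]) with hG
  set H : Matrix ι ι ℤ_[p] := ((γ⁻¹ : GL ι ℤ_[p]) : Matrix ι ι ℤ_[p]) with hH
  set g' : Matrix ι ι ℤ_[p] := (g : Matrix ι ι ℤ_[p]) with hg'
  have k1 : Hᵀ * Gᵀ = 1 := by rw [← Matrix.transpose_mul, e1, Matrix.transpose_one]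
  have k2 : c • (Hᵀ * S * H) = S := by
    calc c • (Hᵀ * S * H) = Hᵀ * (c • S) * H := by rw [Matrix.mul_smul, Matrix.smul_mul]
      _ = (Hᵀ * Gᵀ) * S * (G * H) := by rw [← hc]; simp only [mul_assoc]
      _ = S := by rw [k1, e1, one_mul, mul_one]
  refine ⟨?_, ?_⟩
  · rw [Units.val_mul, Units.val_mul, Matrix.transpose_mul, Matrix.transpose_mul]
    calc Hᵀ * (g'ᵀ * Gᵀ) * S * (G * g' * H) = Hᵀ * g'ᵀ * (Gᵀ * S * G) * g' * H := by
          simp only [mul_assoc]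
      _ = c • (Hᵀ * (g'ᵀ * S * g') * H) := by
          rw [hc]
          simp only [Matrix.mul_smul, Matrix.smul_mul, mul_assoc]
      _ = S := by rw [h1, k2]
  · rw [Units.val_mul, Units.val_mul, Matrix.det_mul, Matrix.det_mul, h2, mul_one,
      ← Matrix.det_mul, e1, Matrix.det_one]

theorem rd_inv_coe (g : GL ι ℤ_[p]) :
    rd ((g⁻¹ : GL ι ℤ_[p]) : Matrix ι ι ℤ_[p])
      = (((red g)⁻¹ : GL ι (ZMod p)) : Matrix ι ι (ZMod p)) := by
  rw [rd_coe, map_inv]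

/-- Conjugation on elements congruent to `1`. -/
theorem conj_one_add {γ g : GL ι ℤ_[p]} {Y : Matrix ι ι ℤ_[p]}
    (hY : (g : Matrix ι ι ℤ_[p]) = 1 + (p : ℤ_[p]) • Y) :
    ((γ * g * γ⁻¹ : GL ι ℤ_[p]) : Matrix ι ι ℤ_[p]) = 1 + (p : ℤ_[p]) •
      ((γ : Matrix ι ι ℤ_[p]) * Y * ((γ⁻¹ : GL ι ℤ_[p]) : Matrix ι ι ℤ_[p])) := by
  have e1 : (γ : Matrix ι ι ℤ_[p]) * ((γ⁻¹ : GL ι ℤ_[p]) : Matrix ι ι ℤ_[p]) = 1 := by
    rw [← Units.val_mul, mul_inv_cancel, Units.val_one]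
  rw [Units.val_mul, Units.val_mul, hY, mul_add, add_mul, mul_one, e1, Matrix.mul_smul,
    Matrix.smul_mul]

theorem logp_nilpotent {u : Matrix ι ι (ZMod p)} (h : IsNilpotent (u - 1)) :
    IsNilpotent (logp u) := by
  rw [logp]
  set N := u - 1 with hN
  have h1 : ∑ i ∈ Finset.Ico 1 p, ((p.choose i / p : ℕ) : ZMod p) • N ^ i
      = N * ∑ i ∈ Finset.Ico 1 p, ((p.choose i / p : ℕ) : ZMod p) • N ^ (i - 1) := by
    rw [Finset.mul_sum]
    refine Finset.sum_congr rfl fun i hi => ?_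
    rw [Finset.mem_Ico] at hi
    rw [Matrix.mul_smul, ← pow_succ']
    congr 2
    omega
  rw [h1]
  refine Commute.isNilpotent_mul_right ?_ h
  refine Commute.sum_right _ _ _ fun i _ => ?_
  exact ((Commute.refl N).pow_right _).smul_right _

/-- A nilpotent matrix in the Lie algebra of the group of similitudes is in the Lie algebra of the
isometry group. -/
theorem scalar_zero [Nonempty ι] {T X : Matrix ι ι (ZMod p)} {c : ZMod p} (hT : IsUnit T)
    (hX : IsNilpotent X) (h : Xᵀ * T + T * X = c • T) : c = 0 := by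
  obtain ⟨w, hw⟩ := hT
  set U : Matrix ι ι (ZMod p) := ((w⁻¹ : (Matrix ι ι (ZMod p))ˣ) : Matrix ι ι (ZMod p)) with hU
  have w1 : T * U = 1 := by rw [← hw]; exact w.mul_inv
  have h1 : c • (1 : Matrix ι ι (ZMod p)) = Xᵀ + T * X * U := by
    have := congrArg (· * U) h
    simp only [add_mul, mul_assoc, w1, mul_one, Matrix.smul_mul] at this
    rw [← this, mul_assoc]
  obtain ⟨k, hk⟩ := hX
  have hn1 : IsNilpotent (T * X * U) := by
    refine ⟨k, ?_⟩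
    rw [← hw, hU, Units.conj_pow, hk, mul_zero, zero_mul]
  have hn2 : IsNilpotent (-Xᵀ) := by
    refine IsNilpotent.neg ⟨k, ?_⟩
    rw [← Matrix.transpose_pow, hk, Matrix.transpose_zero]
  have e2 : T * X * U = c • (1 : Matrix ι ι (ZMod p)) + -Xᵀ := by rw [h1]; abel
  have hcomm : Commute (T * X * U) (-(-Xᵀ)) := by
    rw [e2]
    refine Commute.add_left ?_ ?_
    · exact (Commute.one_left _).smul_left c
    · rw [neg_neg]; exact (Commute.refl _).neg_left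
  have hn3 : IsNilpotent (c • (1 : Matrix ι ι (ZMod p))) := by
    have : c • (1 : Matrix ι ι (ZMod p)) = T * X * U + -(-Xᵀ) := by rw [e2]; abel
    rw [this]
    exact hcomm.isNilpotent_add hn1 hn2.neg
  obtain ⟨m, hm⟩ := hn3
  rw [smul_pow, one_pow] at hm
  have i : ι := Classical.arbitrary ι
  have := congrFun (congrFun hm i) i
  rw [Matrix.smul_apply, Matrix.one_apply_eq, smul_eq_mul, mul_one, Matrix.zero_apply] at this
  by_contra hc
  exact pow_ne_zero m hc this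

theorem exists_unip (hn : 2 * Fintype.card ι ≤ p) {Γ : Subgroup (GL ι ℤ_[p])}
    (hdvd : p ∣ Nat.card (Γ.map (red : GL ι ℤ_[p] →* GL ι (ZMod p)))) :
    Nonempty ι ∧ ∃ γ ∈ Γ, IsNilpotent (rd (γ : Matrix ι ι ℤ_[p]) - 1) ∧
      (rd (γ : Matrix ι ι ℤ_[p]) - 1) ^ (p / 2) = 0 ∧ logp (rd (γ : Matrix ι ι ℤ_[p])) ≠ 0 := by
  have hp : p.Prime := Fact.out
  obtain ⟨u, hu⟩ := exists_prime_orderOf_dvd_card' (G := Γ.map (red : GL ι ℤ_[p] →* _)) p hdvd
  obtain ⟨γ, hγ, e⟩ := Subgroup.mem_map.1 u.2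
  have hup : (u : GL ι (ZMod p)) ^ p = 1 := by
    have := pow_orderOf_eq_one u
    rw [hu] at this
    exact_mod_cast congrArg Subtype.val this
  have hu1 : (u : GL ι (ZMod p)) ≠ 1 := by
    intro h
    have : u = 1 := Subtype.ext h
    rw [this, orderOf_one] at hu
    exact hp.one_lt.ne hu
  have hne : Nonempty ι := by
    by_contra h
    rw [not_nonempty_iff] at h
    exact hu1 (Units.ext (Subsingleton.elim _ _))
  have hchar : CharP (Matrix ι ι (ZMod p)) p := inferInstance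
  set v : Matrix ι ι (ZMod p) := ((u : GL ι (ZMod p)) : Matrix ι ι (ZMod p)) with hv
  have hvp : v ^ p = 1 := by
    rw [hv, ← Units.val_pow_eq_pow_val, hup, Units.val_one]
  have hnil : IsNilpotent (v - 1) := by
    refine ⟨p, ?_⟩
    rw [sub_pow_char_of_commute p (Commute.one_right v), hvp, one_pow, sub_self]
  have hrv : rd (γ : Matrix ι ι ℤ_[p]) = v := by rw [rd_coe, e]
  refine ⟨hne, γ, hγ, ?_, ?_, ?_⟩
  · rw [hrv]; exact hnil
  · rw [hrv]
    have h1 : Fintype.card ι ≤ p / 2 := by omega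
    rw [← Nat.add_sub_cancel' h1, pow_add, pow_card_eq_zero hnil, zero_mul]
  · rw [hrv]
    intro h0
    exact hu1 (Units.ext (eq_one_of_logp hnil h0))

theorem inv_one_add {g : GL ι ℤ_[p]} {Y : Matrix ι ι ℤ_[p]}
    (hY : (g : Matrix ι ι ℤ_[p]) = 1 + (p : ℤ_[p]) • Y) :
    ∃ Y', ((g⁻¹ : GL ι ℤ_[p]) : Matrix ι ι ℤ_[p]) = 1 + (p : ℤ_[p]) • Y' ∧ rd Y' = -rd Y := by
  have h1 : (g : Matrix ι ι ℤ_[p]) * ((g⁻¹ : GL ι ℤ_[p]) : Matrix ι ι ℤ_[p]) = 1 := by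
    rw [← Units.val_mul, mul_inv_cancel, Units.val_one]
  set h : Matrix ι ι ℤ_[p] := ((g⁻¹ : GL ι ℤ_[p]) : Matrix ι ι ℤ_[p]) with hh
  have h2 : h = 1 + (p : ℤ_[p]) • (-(Y * h)) := by
    rw [hY, add_mul, one_mul, Matrix.smul_mul] at h1
    rw [smul_neg, ← sub_eq_add_neg, eq_sub_iff_add_eq]
    exact h1
  refine ⟨-(Y * h), h2, ?_⟩
  have h3 : rd h = 1 := by
    rw [h2, rd_add, rd_psmul, add_zero, rd_one]
  have h4 : rd (-(Y * h)) = -(rd Y * rd h) := by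
    rw [← rd_mul]; exact map_neg _ _
  rw [h4, h3, mul_one]

/-- The quotient of two similitudes with the same factor and the same determinant. -/
theorem div_mem_SOrth {S : Matrix ι ι ℤ_[p]} {g h : GL ι ℤ_[p]}
    (e : (g : Matrix ι ι ℤ_[p])ᵀ * S * (g : Matrix ι ι ℤ_[p])
      = (h : Matrix ι ι ℤ_[p])ᵀ * S * (h : Matrix ι ι ℤ_[p]))
    (hd : (g : Matrix ι ι ℤ_[p]).det = (h : Matrix ι ι ℤ_[p]).det) : g * h⁻¹ ∈ SOrth S := by
  have e1 : (h : Matrix ι ι ℤ_[p]) * ((h⁻¹ : GL ι ℤ_[p]) : Matrix ι ι ℤ_[p]) = 1 := by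
    rw [← Units.val_mul, mul_inv_cancel, Units.val_one]
  set H : Matrix ι ι ℤ_[p] := ((h⁻¹ : GL ι ℤ_[p]) : Matrix ι ι ℤ_[p]) with hH
  set g' : Matrix ι ι ℤ_[p] := (g : Matrix ι ι ℤ_[p]) with hg'
  set h' : Matrix ι ι ℤ_[p] := (h : Matrix ι ι ℤ_[p]) with hh'
  have k1 : Hᵀ * h'ᵀ = 1 := by rw [← Matrix.transpose_mul, e1, Matrix.transpose_one]
  refine ⟨?_, ?_⟩
  · rw [Units.val_mul, Matrix.transpose_mul]
    calc Hᵀ * g'ᵀ * S * (g' * H) = Hᵀ * (g'ᵀ * S * g') * H := by simp only [mul_assoc]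
      _ = (Hᵀ * h'ᵀ) * S * (h' * H) := by rw [e]; simp only [mul_assoc]
      _ = S := by rw [k1, e1, one_mul, mul_one]
  · rw [Units.val_mul, Matrix.det_mul]
    change g'.det * H.det = 1
    rw [hd, ← Matrix.det_mul, e1, Matrix.det_one]

/-- The group `Γ` acts irreducibly and non-trivially on the Lie algebra of the isometry group of
the reduction of `S` modulo `p`. -/
def IrreducibleOnIsoLie (Γ : Subgroup (GL ι ℤ_[p])) (S : Matrix ι ι ℤ_[p]) : Prop :=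
  (∀ W : AddSubgroup (Matrix ι ι (ZMod p)), (∀ X ∈ W, X ∈ IsoLie (rd S)) →
    (∀ γ ∈ Γ, ∀ X ∈ W, ((red γ : GL ι (ZMod p)) : Matrix ι ι (ZMod p)) * X *
      (((red γ)⁻¹ : GL ι (ZMod p)) : Matrix ι ι (ZMod p)) ∈ W) →
    W = ⊥ ∨ ∀ X ∈ IsoLie (rd S), X ∈ W) ∧
  ∃ γ ∈ Γ, ∃ X ∈ IsoLie (rd S), ((red γ : GL ι (ZMod p)) : Matrix ι ι (ZMod p)) * X *
    (((red γ)⁻¹ : GL ι (ZMod p)) : Matrix ι ι (ZMod p)) ≠ X

theorem isoLie_zsmul {T X : Matrix ι ι (ZMod p)} (hX : X ∈ IsoLie T) (n : ℤ) :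
    n • X ∈ IsoLie T := by
  change Xᵀ * T + T * X = 0 at hX
  change (n • X)ᵀ * T + T * (n • X) = 0
  have h1 : (n • X)ᵀ = n • Xᵀ := Matrix.transpose_smul _ _
  rw [h1, smul_mul_assoc, mul_smul_comm, ← smul_add, hX, smul_zero]

theorem lie_le {S : Matrix ι ι ℤ_[p]} (hS : IsUnit S.det) (hn : 2 * Fintype.card ι ≤ p)
    {Γ : Subgroup (GL ι ℤ_[p])} (hsim : ∀ γ ∈ Γ, IsSimilitude S γ)
    (hdvd : p ∣ Nat.card (Γ.map (red : GL ι ℤ_[p] →* GL ι (ZMod p))))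
    (hirr : IrreducibleOnIsoLie Γ S) : lieMod (SOrth S) ≤ lieMod (Γ ⊓ SOrth S) := by
  have hle : ∀ X ∈ lieMod (Γ ⊓ SOrth S), X ∈ IsoLie (rd S) := by
    rintro X ⟨g, hg, Y, hY, e⟩
    exact isoLie_of_mem ⟨g, (Subgroup.mem_inf.1 hg).2, Y, hY, e⟩
  have hst : ∀ γ ∈ Γ, ∀ X ∈ lieMod (Γ ⊓ SOrth S),
      ((red γ : GL ι (ZMod p)) : Matrix ι ι (ZMod p)) * X *
      (((red γ)⁻¹ : GL ι (ZMod p)) : Matrix ι ι (ZMod p)) ∈ lieMod (Γ ⊓ SOrth S) := by
    rintro γ hγ _ ⟨g, hg, Y, hY, rfl⟩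
    obtain ⟨hg1, hg2⟩ := Subgroup.mem_inf.1 hg
    refine ⟨γ * g * γ⁻¹, Subgroup.mem_inf.2 ⟨Γ.mul_mem (Γ.mul_mem hγ hg1) (Γ.inv_mem hγ),
      conj_mem_SOrth (hsim γ hγ) hg2⟩, _, conj_one_add hY, ?_⟩
    rw [rd_mul, rd_mul, rd_coe, rd_inv_coe]
  rcases hirr.1 _ hle hst with h | h
  · exfalso
    obtain ⟨hne, γ₀, hγ₀, hnil, hun, hlog⟩ := exists_unip hn hdvd
    obtain ⟨Y, hY1, hY2⟩ := pow_unip (γ₀ : Matrix ι ι ℤ_[p]) hun
    set X₀ := logp (rd (γ₀ : Matrix ι ι ℤ_[p])) with hX₀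
    set δ : GL ι ℤ_[p] := γ₀ ^ p with hδ
    have hδΓ : δ ∈ Γ := Γ.pow_mem hγ₀ p
    have hδY : (δ : Matrix ι ι ℤ_[p]) = 1 + (p : ℤ_[p]) • Y := by
      rw [hδ, Units.val_pow_eq_pow_val]; exact hY1
    have hSu : IsUnit (rd S) := by
      rw [Matrix.isUnit_iff_isUnit_det]
      have : (rd S).det = PadicInt.toZMod S.det := by rw [rd, ← RingHom.map_det]
      rw [this]; exact hS.map _
    -- the logarithm lies in the Lie algebra
    obtain ⟨c, hc⟩ := hsim δ hδΓ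
    have hc1 : PadicInt.toZMod c = 1 := by
      have h1 := congrArg rd hc
      rw [rd_mul, rd_mul, rd_transpose, rd_smul, hδY, rd_add, rd_psmul, add_zero, rd_one,
        Matrix.transpose_one, one_mul, mul_one] at h1
      obtain ⟨w, hw⟩ := hSu
      have h2 := congrArg (· * ((w⁻¹ : (Matrix ι ι (ZMod p))ˣ) : Matrix ι ι (ZMod p))) h1
      simp only [Matrix.smul_mul] at h2
      rw [← hw, Units.mul_inv] at h2
      have i : ι := Classical.arbitrary ι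
      have h3 := congrFun (congrFun h2 i) i
      rw [Matrix.smul_apply, Matrix.one_apply_eq, smul_eq_mul, mul_one] at h3
      exact h3.symm
    obtain ⟨c1, hc1'⟩ := (toZMod_eq_zero_iff (c - 1)).1 (by rw [map_sub, hc1, map_one, sub_self])
    have hlin : Yᵀ * S + S * Y + (p : ℤ_[p]) • (Yᵀ * S * Y) = c1 • S := by
      have h0 : (p : ℤ_[p]) ^ 1 • (Yᵀ * S + S * Y + (p : ℤ_[p]) • (Yᵀ * S * Y) - c1 • S) = 0 := by
        rw [pow_one, smul_sub]
        rw [hδY, Matrix.transpose_add, Matrix.transpose_smul, Matrix.transpose_one] at hc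
        have h2 : (1 + (p : ℤ_[p]) • Yᵀ) * S * (1 + (p : ℤ_[p]) • Y)
            = S + (p : ℤ_[p]) • (Yᵀ * S + S * Y + (p : ℤ_[p]) • (Yᵀ * S * Y)) := by
          simp only [add_mul, mul_add, one_mul, mul_one, Matrix.smul_mul, Matrix.mul_smul,
            smul_add]
          abel
        rw [h2] at hc
        have h3 : c • S = S + (p : ℤ_[p]) • c1 • S := by
          have : c = 1 + (p : ℤ_[p]) * c1 := by rw [← hc1']; ring
          rw [this, add_smul, one_smul, mul_smul]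
        rw [h3] at hc
        have h4 := add_left_cancel hc
        rw [h4, sub_self]
      have := psmul_cancel h0
      rwa [sub_eq_zero] at this
    have hX₀lie : X₀ ∈ IsoLie (rd S) := by
      have h3 := congrArg rd hlin
      rw [rd_add, rd_psmul, add_zero, rd_add, rd_mul, rd_mul, rd_transpose, hY2, rd_smul] at h3
      have h4 := scalar_zero hSu (logp_nilpotent hnil) h3
      rw [h4, zero_smul] at h3
      exact h3
    -- the logarithm is fixed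
    have hfix : ∀ γ ∈ Γ, ((red γ : GL ι (ZMod p)) : Matrix ι ι (ZMod p)) * X₀ *
        (((red γ)⁻¹ : GL ι (ZMod p)) : Matrix ι ι (ZMod p)) = X₀ := by
      intro γ hγ
      obtain ⟨Y', hY'1, hY'2⟩ := inv_one_add hδY
      have hκ : γ * δ * γ⁻¹ * δ⁻¹ ∈ Γ ⊓ SOrth S := by
        refine Subgroup.mem_inf.2 ⟨Γ.mul_mem (Γ.mul_mem (Γ.mul_mem hγ hδΓ) (Γ.inv_mem hγ))
          (Γ.inv_mem hδΓ), ?_⟩
        have e1 : γ * δ * γ⁻¹ * δ⁻¹ = (γ * δ) * (δ * γ)⁻¹ := by group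
        rw [e1]
        obtain ⟨a, ha⟩ := hsim γ hγ
        refine div_mem_SOrth ?_ ?_
        · rw [Units.val_mul, Units.val_mul, Matrix.transpose_mul, Matrix.transpose_mul]
          set A := (γ : Matrix ι ι ℤ_[p])
          set D := (δ : Matrix ι ι ℤ_[p])
          calc Dᵀ * Aᵀ * S * (A * D) = Dᵀ * (Aᵀ * S * A) * D := by simp only [mul_assoc]
            _ = a • (Dᵀ * S * D) := by rw [ha, Matrix.mul_smul, Matrix.smul_mul]
            _ = (a * c) • S := by rw [hc, smul_smul]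
            _ = c • (Aᵀ * S * A) := by rw [ha, smul_smul, mul_comm]
            _ = Aᵀ * (Dᵀ * S * D) * A := by rw [hc, Matrix.mul_smul, Matrix.smul_mul]
            _ = Aᵀ * Dᵀ * S * (D * A) := by simp only [mul_assoc]
        · rw [Units.val_mul, Units.val_mul, Matrix.det_mul, Matrix.det_mul, mul_comm]
      have h1 := conj_one_add (γ := γ) hδY
      have hmem : ((red γ : GL ι (ZMod p)) : Matrix ι ι (ZMod p)) * X₀ *
          (((red γ)⁻¹ : GL ι (ZMod p)) : Matrix ι ι (ZMod p)) + -X₀ ∈ lieMod (Γ ⊓ SOrth S) := by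
        refine ⟨_, hκ, (γ : Matrix ι ι ℤ_[p]) * Y * ((γ⁻¹ : GL ι ℤ_[p]) : Matrix ι ι ℤ_[p]) + Y'
          + (p : ℤ_[p]) • ((γ : Matrix ι ι ℤ_[p]) * Y *
            ((γ⁻¹ : GL ι ℤ_[p]) : Matrix ι ι ℤ_[p]) * Y'), ?_, ?_⟩
        · rw [Units.val_mul, h1, hY'1, add_mul, one_mul, mul_add, mul_one, Matrix.smul_mul,
            Matrix.mul_smul, smul_add, smul_add]
          abel
        · rw [rd_add, rd_add, rd_psmul, add_zero, rd_mul, rd_mul, rd_coe, rd_inv_coe, hY'2, hY2]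
      rw [h, AddSubgroup.mem_bot] at hmem
      exact add_neg_eq_zero.1 hmem
    -- contradiction with irreducibility
    have h2 := hirr.1 (AddSubgroup.zmultiples X₀) (by
      intro X hX
      obtain ⟨n, rfl⟩ := AddSubgroup.mem_zmultiples_iff.1 hX
      exact isoLie_zsmul hX₀lie n) (by
      intro γ hγ X hX
      obtain ⟨n, rfl⟩ := AddSubgroup.mem_zmultiples_iff.1 hX
      rw [mul_smul_comm, smul_mul_assoc, hfix γ hγ]
      exact AddSubgroup.zsmul_mem_zmultiples X₀ n)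
    rcases h2 with h2 | h2
    · rw [AddSubgroup.zmultiples_eq_bot] at h2
      exact hlog h2
    · obtain ⟨γ, hγ, X, hX, hne2⟩ := hirr.2
      obtain ⟨n, rfl⟩ := AddSubgroup.mem_zmultiples_iff.1 (h2 X hX)
      apply hne2
      rw [mul_smul_comm, smul_mul_assoc, hfix γ hγ]
  · intro X hX
    exact h X (isoLie_of_mem hX)

/-- **Criterion for similitudes.** -/
theorem simil_kernel (hp3 : 3 ≤ p) {S : Matrix ι ι ℤ_[p]} (hS : IsUnit S.det)
    (hn : 2 * Fintype.card ι ≤ p)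
    {Γ : Subgroup (GL ι ℤ_[p])} (hsim : ∀ γ ∈ Γ, IsSimilitude S γ) (hcl : PadicClosed Γ)
    (hdvd : p ∣ Nat.card (Γ.map (red : GL ι ℤ_[p] →* GL ι (ZMod p))))
    (hirr : IrreducibleOnIsoLie Γ S) (g : GL ι ℤ_[p]) (hg : g ∈ SOrth S)
    (h1 : Dv 1 ((g : Matrix ι ι ℤ_[p]) - 1)) : g ∈ Γ := by
  have hlie := lie_le hS hn hsim hdvd hirr
  refine hcl g fun k => ?_
  obtain ⟨γ, hγ, h⟩ := approx hp3 (saturated_SOrth hp3 hS.ne_zero) inf_le_right hlie g hg h1 k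
  exact ⟨γ, (Subgroup.mem_inf.1 hγ).1, h.mono (by omega)⟩

end Pool.Agent.X279.IM
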