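import Pool.Agent.X279.IM.Level

/-!
# Zariski density of the principal congruence subgroup
-/

namespace Pool.Agent.X279.IM

set_option linter.unusedSectionVars false

open Matrix

section Generic

variable {ι : Type} [Fintype ι] [DecidableEq ι] {K : Type} [Field K]

/-- The value of a polynomial in the entries of a matrix. -/
noncomputable def evM (M : Matrix ι ι K) : MvPolynomial (ι × ι) K →+* K :=
  MvPolynomial.eval (fun ij => M ij.1 ij.2)

noncomputable def genX (ι K : Type) [Field K] : Matrix ι ι (MvPolynomial (ι × ι) K) :=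
  Matrix.of fun i j => MvPolynomial.X (i, j)

noncomputable def genB (S : Matrix ι ι K) (ε : K) : Matrix ι ι (MvPolynomial (ι × ι) K) :=
  (genX ι K - (MvPolynomial.C ε : MvPolynomial (ι × ι) K) • (genX ι K)ᵀ) * S.map MvPolynomial.C

theorem map_genX (M : Matrix ι ι K) : (evM M).mapMatrix (genX ι K) = M := by
  ext i j; simp [genX, evM]

theorem map_genB (S : Matrix ι ι K) (ε : K) (M : Matrix ι ι K) :
    (evM M).mapMatrix (genB S ε) = (M - ε • Mᵀ) * S := by
  rw [genB, map_mul, map_sub, map_genX]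
  congr 1
  · congr 1
    ext i j
    simp [genX, evM]
  · ext i j
    simp [evM]

theorem exists_denom (S : Matrix ι ι K) (ε : K) (f : MvPolynomial (ι × ι) K) :
    ∃ (d : ℕ) (P : MvPolynomial (ι × ι) K), ∀ M H : Matrix ι ι K,
      (1 + (M - ε • Mᵀ) * S) * H = 1 →
      evM M P = (1 + (M - ε • Mᵀ) * S).det ^ d * evM ((1 - (M - ε • Mᵀ) * S) * H) f := by
  set D : MvPolynomial (ι × ι) K := (1 + genB S ε).det with hDdef
  set N : Matrix ι ι (MvPolynomial (ι × ι) K) := (1 - genB S ε) * (1 + genB S ε).adjugate with hNdef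
  have hD : ∀ M, evM M D = (1 + (M - ε • Mᵀ) * S).det := by
    intro M
    rw [hDdef, RingHom.map_det, map_add, map_one, map_genB]
  have hN : ∀ M H : Matrix ι ι K, (1 + (M - ε • Mᵀ) * S) * H = 1 → ∀ i j,
      evM M (N i j) = (1 + (M - ε • Mᵀ) * S).det * ((1 - (M - ε • Mᵀ) * S) * H) i j := by
    intro M H hH i j
    have h1 : (evM M).mapMatrix N
        = (1 + (M - ε • Mᵀ) * S).det • ((1 - (M - ε • Mᵀ) * S) * H) := by
      rw [hNdef, map_mul, map_sub, map_one, map_genB, RingHom.map_adjugate, map_add, map_one,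
        map_genB]
      set A := 1 + (M - ε • Mᵀ) * S
      have h2 : A.adjugate = A.det • H := by
        calc A.adjugate = A.adjugate * (A * H) := by rw [hH, mul_one]
          _ = A.det • H := by rw [← mul_assoc, Matrix.adjugate_mul, Matrix.smul_mul, one_mul]
      rw [h2, Matrix.mul_smul]
    have := congrFun (congrFun h1 i) j
    simpa using this
  induction f using MvPolynomial.induction_on with
  | C a =>
    refine ⟨0, MvPolynomial.C a, fun M H _ => ?_⟩
    simp [evM]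
  | add f1 f2 ih1 ih2 =>
    obtain ⟨d1, P1, h1⟩ := ih1
    obtain ⟨d2, P2, h2⟩ := ih2
    refine ⟨d1 + d2, D ^ d2 * P1 + D ^ d1 * P2, fun M H hH => ?_⟩
    rw [map_add, map_mul, map_mul, map_pow, map_pow, hD, h1 M H hH, h2 M H hH, map_add]
    ring
  | mul_X f ij ih =>
    obtain ⟨d, P, h⟩ := ih
    refine ⟨d + 1, P * N ij.1 ij.2, fun M H hH => ?_⟩
    rw [map_mul, h M H hH, hN M H hH, map_mul]
    have : evM ((1 - (M - ε • Mᵀ) * S) * H) (MvPolynomial.X ij)
        = ((1 - (M - ε • Mᵀ) * S) * H) ij.1 ij.2 := by simp [evM]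
    rw [this]
    ring

/-- Every isometry `g` with `det (1 + g) ≠ 0` is a Cayley transform. -/
theorem isometry_cayley {S g : Matrix ι ι K} {ε : K} (h2 : (2 : K) ≠ 0) (hS : IsUnit S.det)
    (hε : ε * ε = 1) (hT : Sᵀ = ε • S) (hg : gᵀ * S * g = S) (hdet : (1 + g).det ≠ 0) :
    ∃ M H : Matrix ι ι K, (1 + (M - ε • Mᵀ) * S) * H = 1 ∧
      (1 - (M - ε • Mᵀ) * S) * H = g := by
  obtain ⟨T, hT1, hT2⟩ : ∃ T : Matrix ι ι K, S * T = 1 ∧ T * S = 1 :=
    ⟨S⁻¹, Matrix.mul_nonsing_inv S hS, Matrix.nonsing_inv_mul S hS⟩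
  obtain ⟨U, hU1, hU2⟩ : ∃ U : Matrix ι ι K, (1 + g) * U = 1 ∧ U * (1 + g) = 1 :=
    ⟨(1 + g)⁻¹, Matrix.mul_nonsing_inv _ (isUnit_iff_ne_zero.2 hdet),
      Matrix.nonsing_inv_mul _ (isUnit_iff_ne_zero.2 hdet)⟩
  set A : Matrix ι ι K := (1 - g) * U with hA
  have hUt : Uᵀ * (1 + g)ᵀ = 1 := by rw [← Matrix.transpose_mul, hU1, Matrix.transpose_one]
  have hskew : Aᵀ * S + S * A = 0 := by
    have k : (1 - g)ᵀ * S * (1 + g) + (1 + g)ᵀ * S * (1 - g) = 0 := by
      rw [Matrix.transpose_sub, Matrix.transpose_add, Matrix.transpose_one]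
      have : (1 - gᵀ) * S * (1 + g) + (1 + gᵀ) * S * (1 - g) = (2 : K) • (S - gᵀ * S * g) := by
        rw [two_smul]; noncomm_ring
      rw [this, hg, sub_self, smul_zero]
    have e : Aᵀ * S + S * A
        = Uᵀ * ((1 - g)ᵀ * S * (1 + g) + (1 + g)ᵀ * S * (1 - g)) * U := by
      rw [hA, Matrix.transpose_mul]
      have e1 : Uᵀ * ((1 - g)ᵀ * S * (1 + g)) * U = Uᵀ * (1 - g)ᵀ * S := by
        calc Uᵀ * ((1 - g)ᵀ * S * (1 + g)) * U = Uᵀ * (1 - g)ᵀ * S * ((1 + g) * U) := by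
              simp only [mul_assoc]
          _ = _ := by rw [hU1, mul_one]
      have e2 : Uᵀ * ((1 + g)ᵀ * S * (1 - g)) * U = S * ((1 - g) * U) := by
        calc Uᵀ * ((1 + g)ᵀ * S * (1 - g)) * U = (Uᵀ * (1 + g)ᵀ) * (S * ((1 - g) * U)) := by
              simp only [mul_assoc]
          _ = _ := by rw [hUt, one_mul]
      rw [mul_add, add_mul, e1, e2]
    rw [e, k, mul_zero, zero_mul]
  have hTt : Tᵀ = ε • T := by
    have h1 : Tᵀ * Sᵀ = 1 := by rw [← Matrix.transpose_mul, hT1, Matrix.transpose_one]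
    rw [hT, Matrix.mul_smul] at h1
    calc Tᵀ = Tᵀ * (S * T) := by rw [hT1, mul_one]
      _ = ε • ((ε • (Tᵀ * S)) * T) := by
          rw [Matrix.smul_mul, smul_smul, hε, one_smul, mul_assoc]
      _ = ε • T := by rw [h1, one_mul]
  have hTA : T * Aᵀ = -(A * T) := by
    have h1 : Aᵀ * S = -(S * A) := eq_neg_of_add_eq_zero_left hskew
    calc T * Aᵀ = T * (Aᵀ * S) * T := by rw [mul_assoc T, mul_assoc Aᵀ, hT1, mul_one]
      _ = -((T * S) * (A * T)) := by rw [h1]; noncomm_ring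
      _ = -(A * T) := by rw [hT2, one_mul]
  set M : Matrix ι ι K := (2 : K)⁻¹ • (A * T) with hM
  have hMt : M - ε • Mᵀ = A * T := by
    rw [hM, Matrix.transpose_smul, Matrix.transpose_mul, hTt, Matrix.smul_mul,
      smul_comm (2 : K)⁻¹ ε, smul_smul, hε, one_smul, hTA, smul_neg, sub_neg_eq_add, ← two_smul K,
      smul_smul, mul_inv_cancel₀ h2, one_smul]
  have hB : (M - ε • Mᵀ) * S = A := by rw [hMt, mul_assoc, hT2, mul_one]
  refine ⟨M, (2 : K)⁻¹ • (1 + g), ?_, ?_⟩
  · rw [hB]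
    have h1 : 1 + A = (2 : K) • U := by
      calc 1 + A = (1 + g) * U + (1 - g) * U := by rw [hU1]
        _ = (2 : K) • U := by rw [two_smul]; noncomm_ring
    rw [h1, Matrix.smul_mul, Matrix.mul_smul, smul_smul, mul_inv_cancel₀ h2, one_smul, hU2]
  · rw [hB]
    have h1 : 1 - A = (2 : K) • (g * U) := by
      calc 1 - A = (1 + g) * U - (1 - g) * U := by rw [hU1]
        _ = (2 : K) • (g * U) := by rw [two_smul]; noncomm_ring
    rw [h1, Matrix.smul_mul, Matrix.mul_smul, smul_smul, mul_inv_cancel₀ h2, one_smul, mul_assoc,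
      hU2, mul_one]

end Generic

variable {ι : Type} [Fintype ι] [DecidableEq ι] {p : ℕ} [Fact p.Prime]

/-- **Zariski density.** -/
theorem zariski_dense {S : Matrix ι ι ℤ_[p]} (hS : IsUnit S.det) {ε : ℤ_[p]} (hε : ε * ε = 1)
    (hT : Sᵀ = ε • S) {k : ℕ} (hk : 1 ≤ k)
    {K : Type} [Field K] (φ : ℤ_[p] →+* K) (hφ : Function.Injective φ)
    (f : MvPolynomial (ι × ι) K)
    (hf : ∀ γ ∈ SOrth S, Dv k ((γ : Matrix ι ι ℤ_[p]) - 1) →
      evM ((γ : Matrix ι ι ℤ_[p]).map φ) f = 0)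
    (g : Matrix ι ι K) (hg : gᵀ * S.map φ * g = S.map φ) (hdet : (1 + g).det ≠ 0) :
    evM g f = 0 := by
  have hp : p.Prime := Fact.out
  obtain ⟨d, P, hP⟩ := exists_denom (S.map φ) (φ ε) f
  have hP0 : P = 0 := by
    refine MvPolynomial.funext_set (fun _ => Set.range fun x : ℤ_[p] => φ ((p : ℤ_[p]) ^ k * x)) ?_ ?_
    · intro _
      refine Set.infinite_range_of_injective ?_
      intro x y hxy
      have h1 := hφ hxy
      exact mul_left_cancel₀ (pow_ne_zero k (by exact_mod_cast hp.ne_zero)) h1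
    · intro x hx
      rw [map_zero]
      choose m hm using fun ij => hx ij (Set.mem_univ ij)
      set M₁ : Matrix ι ι ℤ_[p] := Matrix.of fun i j => m (i, j) with hM₁
      obtain ⟨M₀, hM₀⟩ : ∃ M₀ : Matrix ι ι ℤ_[p], M₀ = (p : ℤ_[p]) ^ k • M₁ := ⟨_, rfl⟩
      set M : Matrix ι ι K := Matrix.of fun i j => x (i, j) with hM
      have hMM : M = φ.mapMatrix M₀ := by
        ext i j
        rw [hM, hM₀, hM₁]
        simp only [Matrix.of_apply, RingHom.mapMatrix_apply, Matrix.map_apply, Matrix.smul_apply,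
          smul_eq_mul]
        exact (hm (i, j)).symm
      set A : Matrix ι ι ℤ_[p] := (M₀ - ε • M₀ᵀ) * S with hA
      have hAK : (M - φ ε • Mᵀ) * S.map φ = φ.mapMatrix A := by
        rw [hA, map_mul, map_sub, ← hMM]
        congr 2
        rw [hMM]
        ext i j
        simp
      have hskew : Aᵀ * S + S * A = 0 := by
        rw [hA, Matrix.transpose_mul, hT, Matrix.transpose_sub, Matrix.transpose_smul,
          Matrix.transpose_transpose]
        have h1 : ε • S * (M₀ᵀ - ε • M₀) = -(S * (M₀ - ε • M₀ᵀ)) := by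
          rw [Matrix.smul_mul, mul_sub, mul_sub, smul_sub, Matrix.mul_smul, Matrix.mul_smul,
            smul_smul, hε, one_smul]
          abel
        rw [h1, Matrix.neg_mul, mul_assoc]
        exact neg_add_cancel _
      obtain ⟨B, hAp⟩ : ∃ B : Matrix ι ι ℤ_[p], A = (p : ℤ_[p]) ^ k • B := by
        refine ⟨(M₁ - ε • M₁ᵀ) * S, ?_⟩
        rw [hA, hM₀, Matrix.transpose_smul, smul_comm ε ((p : ℤ_[p]) ^ k), ← smul_sub,
          Matrix.smul_mul]
      have hrA : rd A = 0 := by rw [hAp, rd_pow_smul hk]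
      have hr1 : rd (1 + A) = 1 := by rw [rd_add, rd_one, hrA, add_zero]
      obtain ⟨v, hv⟩ := isUnit_of_rd (A := 1 + A) (by rw [hr1]; exact isUnit_one)
      set H : Matrix ι ι ℤ_[p] := ((v⁻¹ : (Matrix ι ι ℤ_[p])ˣ) : Matrix ι ι ℤ_[p]) with hH
      have v1 : (1 + A) * H = 1 := by rw [← hv]; exact v.mul_inv
      obtain ⟨γ, hγ, e⟩ := cayley hS.ne_zero hskew v1
      have hγ1 : Dv k ((γ : Matrix ι ι ℤ_[p]) - 1) := by
        refine ⟨-((2 : ℤ_[p]) • (B * H)), ?_⟩
        have h0 : (1 - A) * H = (1 + A) * H - (2 : ℤ_[p]) • (A * H) := by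
          rw [two_smul]; noncomm_ring
        rw [e, h0, v1, hAp, Matrix.smul_mul, smul_comm (2 : ℤ_[p]) ((p : ℤ_[p]) ^ k), smul_neg]
        abel
      have h0 := hf γ hγ hγ1
      have h3 := hP M (φ.mapMatrix H) (by
        rw [hAK, ← map_one φ.mapMatrix, ← map_add, ← map_mul, v1])
      have h4 : (1 - (M - φ ε • Mᵀ) * S.map φ) * φ.mapMatrix H = (γ : Matrix ι ι ℤ_[p]).map φ := by
        rw [hAK, ← map_one φ.mapMatrix, ← map_sub, ← map_mul, e]
        rfl
      rw [h4, h0, mul_zero] at h3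
      exact h3
  have h2 : (2 : K) ≠ 0 := by
    have : φ 2 = 2 := map_ofNat φ 2
    rw [← this]
    intro h
    have h1 : (2 : ℤ_[p]) = 0 := hφ (by rw [h, map_zero])
    exact two_ne_zero h1
  have hSK : IsUnit (S.map φ).det := by
    have : (S.map φ).det = φ S.det := by rw [RingHom.map_det]; rfl
    rw [this]; exact hS.map φ
  have hTK : (S.map φ)ᵀ = φ ε • S.map φ := by
    rw [← Matrix.transpose_map, hT]
    ext i j
    simp
  obtain ⟨M, H, h3, h4⟩ := isometry_cayley h2 hSK (by rw [← map_mul, hε, map_one]) hTK hg hdet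
  have h5 := hP M H h3
  rw [hP0, map_zero, h4] at h5
  have h6 : (1 + (M - φ ε • Mᵀ) * S.map φ).det ≠ 0 := by
    intro h
    have := congrArg Matrix.det h3
    rw [Matrix.det_mul, h, zero_mul, Matrix.det_one] at this
    exact zero_ne_one this
  rcases mul_eq_zero.1 h5.symm with h | h
  · exact absurd h (pow_ne_zero _ h6)
  · exact h

end Pool.Agent.X279.IM
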